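import Mathlib

/-!
# Definitions for MP_505b0b_al: self-similar groups and the big powers property
-/

namespace Pool.Agent.MP505b0b

/-- `G` is self-similar: it has a faithful action on the words over a finite alphabet `X` such that
for all `g` and all letters `x` there are a letter `y` and an element `h` of `G` with
`g (x w) = y h(w)` for all words `w`. -/
def SelfSimilar (G : Type) [Group G] : Prop :=
  ∃ (X : Type) (_ : Fintype X) (φ : G →* Equiv.Perm (List X)),
    Function.Injective φ ∧
    ∀ (g : G) (x : X), ∃ (h : G) (y : X), ∀ w : List X, φ g (x :: w) = y :: φ h w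

/-- The big powers property: if `w ≠ 1`, the `e_i` and `e'` are nonzero integers and no `x_i`
commutes with `w`, then `c w^{k e_1} x_1 ⋯ w^{k e_m} x_m w^{k e'} ≠ 1` for all large `k`. -/
def BigPowers (R : Type) [Group R] : Prop :=
  ∀ w : R, w ≠ 1 → ∀ (c : R) (L : List (ℤ × R)) (e' : ℤ), e' ≠ 0 →
    (∀ p ∈ L, p.1 ≠ 0 ∧ ¬ Commute p.2 w) →
    ∃ K : ℕ, ∀ k : ℕ, K ≤ k →
      c * (L.map fun p => w ^ ((k : ℤ) * p.1) * p.2).prod * w ^ ((k : ℤ) * e') ≠ 1

end Pool.Agent.MP505b0b
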