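import Mathlib
import Pool.Agent.Lib.MP_505b0b_al.Defs

/-!
# Self-similar groups and finite families of virtual endomorphisms

Definitions and lemmas for `MP_505b0b_al`.
-/

namespace Pool.Agent.MP505b0b

open Subgroup

/-- A virtual endomorphism of `G`: a subgroup `D` of finite index and a map `f` which is
multiplicative on `D`. -/
structure VEnd (G : Type) [Group G] where
  D : Subgroup G
  f : G → G
  fi : D.FiniteIndex
  mul : ∀ a ∈ D, ∀ b ∈ D, f (a * b) = f a * f b

namespace VEnd

variable {G : Type} [Group G] (v : VEnd G)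

lemma one : v.f 1 = 1 := by
  have h := v.mul 1 v.D.one_mem 1 v.D.one_mem
  rw [mul_one] at h
  exact (mul_eq_left.1 h.symm)

lemma inv (a : G) (ha : a ∈ v.D) : v.f a⁻¹ = (v.f a)⁻¹ := by
  have h := v.mul a ha a⁻¹ (v.D.inv_mem ha)
  rw [mul_inv_cancel, v.one] at h
  exact (inv_eq_of_mul_eq_one_right h.symm).symm

/-- The homomorphism on `D`. -/
def hom : v.D →* G where
  toFun a := v.f a
  map_one' := v.one
  map_mul' a b := v.mul a a.2 b b.2

/-- `K` is invariant under the virtual endomorphism `v`. -/
def Inv (K : Subgroup G) : Prop := K ≤ v.D ∧ ∀ k ∈ K, v.f k ∈ K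

end VEnd

/-- The group has a finite family of virtual endomorphisms with no nontrivial invariant
subgroup. -/
def Fam (G : Type) [Group G] : Prop :=
  ∃ (I : Type) (_ : Finite I) (v : I → VEnd G), ∀ K : Subgroup G, (∀ i, (v i).Inv K) → K = ⊥

section toAction

variable {G : Type} [Group G] {I : Type} (v : I → VEnd G)

/-- the letters -/
abbrev Letters := Σ i, G ⧸ (v i).D

/-- action on letters -/
def actL (g : G) (x : Letters v) : Letters v := ⟨x.1, g • x.2⟩

/-- section element -/
noncomputable def sec (g : G) (x : Letters v) : G :=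
  (v x.1).f ((g • x.2 : G ⧸ (v x.1).D).out⁻¹ * g * x.2.out)

lemma sec_mem (g : G) (x : Letters v) :
    (g • x.2 : G ⧸ (v x.1).D).out⁻¹ * g * x.2.out ∈ (v x.1).D := by
  have h1 : ((g • x.2 : G ⧸ (v x.1).D).out : G ⧸ (v x.1).D) = ((g * x.2.out : G) : G ⧸ (v x.1).D) := by
    rw [QuotientGroup.out_eq']
    conv_lhs => rw [← QuotientGroup.out_eq' x.2]
    rfl
  have h2 := QuotientGroup.eq.1 h1
  rwa [← mul_assoc] at h2

lemma actL_mul (g h : G) (x : Letters v) : actL v (g * h) x = actL v g (actL v h x) :=
  Sigma.ext rfl (heq_of_eq (mul_smul g h x.2))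

lemma actL_one (x : Letters v) : actL v 1 x = x := by
  simp [actL]

lemma sec_mul (g h : G) (x : Letters v) :
    sec v (g * h) x = sec v g (actL v h x) * sec v h x := by
  have h1 := sec_mem v g (actL v h x)
  have h2 := sec_mem v h x
  have h3 := (v x.1).mul _ h1 _ h2
  refine Eq.trans ?_ h3
  obtain ⟨i, q⟩ := x
  change (v i).f (((g * h) • q : G ⧸ (v i).D).out⁻¹ * (g * h) * q.out) =
    (v i).f ((g • (h • q) : G ⧸ (v i).D).out⁻¹ * g * (h • q : G ⧸ (v i).D).out *
      ((h • q : G ⧸ (v i).D).out⁻¹ * h * q.out))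
  congr 1
  rw [mul_smul]
  generalize (g • (h • q) : G ⧸ (v i).D).out = a
  generalize (h • q : G ⧸ (v i).D).out = b
  generalize q.out = c
  group

lemma sec_one (x : Letters v) : sec v 1 x = 1 := by
  unfold sec
  simp [VEnd.one]

/-- action on words -/
noncomputable def actW : G → List (Letters v) → List (Letters v)
  | _, [] => []
  | g, x :: w => actL v g x :: actW (sec v g x) w

lemma actW_one (w : List (Letters v)) : actW v 1 w = w := by
  induction w with
  | nil => rfl
  | cons x w ih => rw [actW, actL_one, sec_one, ih]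

lemma actW_mul (w : List (Letters v)) : ∀ g h : G, actW v (g * h) w = actW v g (actW v h w) := by
  induction w with
  | nil => intro g h; rfl
  | cons x w ih => intro g h; rw [actW, actW, actW, actL_mul, sec_mul, ih]

/-- the permutation representation -/
noncomputable def rep : G →* Equiv.Perm (List (Letters v)) where
  toFun g :=
    { toFun := actW v g
      invFun := actW v g⁻¹
      left_inv := fun w => by rw [← actW_mul, inv_mul_cancel, actW_one]
      right_inv := fun w => by rw [← actW_mul, mul_inv_cancel, actW_one] }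
  map_one' := by ext1 w; exact actW_one v w
  map_mul' g h := by ext1 w; exact actW_mul v w g h

lemma rep_apply (g : G) (w : List (Letters v)) : rep v g w = actW v g w := rfl

end toAction

/-- A family for which every invariant *normal* subgroup is trivial gives a self-similar action. -/
theorem selfSimilar_of_normal {G : Type} [Group G] {I : Type} [Finite I] (v : I → VEnd G)
    (hv : ∀ K : Subgroup G, K.Normal → (∀ i, (v i).Inv K) → K = ⊥) : SelfSimilar G := by
  classical
  have : ∀ i, Finite (G ⧸ (v i).D) := fun i =>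
    have := (v i).fi
    Subgroup.finite_quotient_of_finiteIndex
  refine ⟨Letters v, Fintype.ofFinite _, rep v, ?_, ?_⟩
  · rw [← MonoidHom.ker_eq_bot_iff]
    apply hv _ inferInstance
    have key : ∀ (i : I) (k : G), k ∈ (rep v).ker → k ∈ (v i).D ∧ (v i).f k ∈ (rep v).ker := by
      intro i k hk
      rw [MonoidHom.mem_ker] at hk
      have hk' : ∀ w, actW v k w = w := fun w => by rw [← rep_apply, hk]; rfl
      set x : Letters v := ⟨i, ((1 : G) : G ⧸ (v i).D)⟩ with hx
      have h1 : ∀ w, actL v k x :: actW v (sec v k x) w = x :: w := fun w => hk' (x :: w)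
      have h2 : actL v k x = x := (List.cons.inj (h1 [])).1
      have h3 : sec v k x ∈ (rep v).ker := by
        rw [MonoidHom.mem_ker]
        ext1 w
        exact (List.cons.inj (h1 w)).2
      have h4 : (k • ((1 : G) : G ⧸ (v i).D)) = ((1 : G) : G ⧸ (v i).D) := by
        have := h2
        simp only [actL, hx, Sigma.mk.injEq, heq_eq_eq, true_and] at this
        exact this
      have h5 : k ∈ (v i).D := by
        have h6 : ((k * 1 : G) : G ⧸ (v i).D) = ((1 : G) : G ⧸ (v i).D) := h4
        have h7 := QuotientGroup.eq.1 h6.symm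
        simpa using h7
      refine ⟨h5, ?_⟩
      have hout : (((1 : G) : G ⧸ (v i).D)).out ∈ (v i).D := by
        have h8 : ((((1 : G) : G ⧸ (v i).D)).out : G ⧸ (v i).D) = ((1 : G) : G ⧸ (v i).D) :=
          QuotientGroup.out_eq' _
        have h9 := QuotientGroup.eq.1 h8.symm
        simpa using h9
      set t : G := (((1 : G) : G ⧸ (v i).D)).out with ht
      have h10 : sec v k x = (v i).f (t⁻¹ * k * t) := by
        unfold sec
        simp only [hx]
        rw [h4]
      rw [h10, (v i).mul _ ((v i).D.mul_mem ((v i).D.inv_mem hout) h5) _ hout,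
        (v i).mul _ ((v i).D.inv_mem hout) _ h5, (v i).inv _ hout] at h3
      have h11 := (inferInstance : (rep v).ker.Normal).conj_mem _ h3 ((v i).f t)
      have h12 : (v i).f t * (((v i).f t)⁻¹ * (v i).f k * (v i).f t) * ((v i).f t)⁻¹ = (v i).f k := by
        group
      rwa [h12] at h11
    intro i
    exact ⟨fun k hk => (key i k hk).1, fun k hk => (key i k hk).2⟩
  · intro g x
    exact ⟨sec v g x, actL v g x, fun w => rfl⟩

theorem selfSimilar_of_fam {G : Type} [Group G] (h : Fam G) : SelfSimilar G := by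
  obtain ⟨I, hI, v, hv⟩ := h
  exact selfSimilar_of_normal v (fun K _ hK => hv K hK)

/-- Conversely a self-similar group has such a family. -/
theorem fam_of_selfSimilar {G : Type} [Group G] (h : SelfSimilar G) : Fam G := by
  classical
  obtain ⟨X, hX, φ, hφ, hs⟩ := h
  choose s y hsy using hs
  have hmul : ∀ g h x, y (g * h) x = y g (y h x) ∧ s (g * h) x = s g (y h x) * s h x := by
    intro g h x
    have h1 : ∀ w, y (g * h) x :: φ (s (g * h) x) w = y g (y h x) :: φ (s g (y h x)) (φ (s h x) w) := by
      intro w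
      rw [← hsy, map_mul, Equiv.Perm.mul_apply, hsy, hsy]
    refine ⟨(List.cons.inj (h1 [])).1, ?_⟩
    apply hφ
    ext1 w
    rw [map_mul, Equiv.Perm.mul_apply]
    exact (List.cons.inj (h1 w)).2
  have hone : ∀ x, y 1 x = x ∧ s 1 x = 1 := by
    intro x
    have h1 : ∀ w, y 1 x :: φ (s 1 x) w = x :: w := by
      intro w
      rw [← hsy, map_one]; rfl
    refine ⟨(List.cons.inj (h1 [])).1, ?_⟩
    apply hφ
    ext1 w
    rw [map_one]
    exact (List.cons.inj (h1 w)).2
  let _ : MulAction G X :=
    { smul := y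
      one_smul := fun x => (hone x).1
      mul_smul := fun g h x => (hmul g h x).1 }
  have hsm : ∀ (g : G) (x : X), g • x = y g x := fun _ _ => rfl
  refine ⟨X, inferInstance, fun x =>
    { D := MulAction.stabilizer G x
      f := fun g => s g x
      fi := ?_
      mul := ?_ }, ?_⟩
  · apply Subgroup.finiteIndex_iff_finite_quotient.2
    exact Finite.of_equiv _ (MulAction.orbitEquivQuotientStabilizer G x)
  · intro a _ b hb
    have hb' : y b x = x := by rw [← hsm]; exact hb
    rw [(hmul a b x).2, hb']
  · intro K hK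
    have key : ∀ w : List X, ∀ g ∈ K, φ g w = w := by
      intro w
      induction w with
      | nil =>
        intro g _
        by_contra hne
        have h1 : φ g⁻¹ (φ g []) = [] := by
          rw [← Equiv.Perm.mul_apply, ← map_mul, inv_mul_cancel, map_one]; rfl
        cases hc : φ g [] with
        | nil => exact hne hc
        | cons z w' =>
          rw [hc, hsy] at h1
          exact List.cons_ne_nil _ _ h1
      | cons x w ih =>
        intro g hg
        have h1 : y g x = x := by rw [← hsm]; exact (hK x).1 hg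
        rw [hsy, h1, ih _ ((hK x).2 g hg)]
    rw [eq_bot_iff]
    intro g hg
    rw [Subgroup.mem_bot]
    apply hφ
    rw [map_one]
    ext1 w
    exact key w g hg

theorem selfSimilar_iff_fam {G : Type} [Group G] : SelfSimilar G ↔ Fam G :=
  ⟨fam_of_selfSimilar, selfSimilar_of_fam⟩

/-- Self-similarity is invariant under isomorphism. -/
theorem SelfSimilar.of_equiv {G H : Type} [Group G] [Group H] (e : G ≃* H) (h : SelfSimilar G) :
    SelfSimilar H := by
  obtain ⟨X, hX, φ, hφ, hs⟩ := h
  refine ⟨X, hX, φ.comp e.symm.toMonoidHom, hφ.comp e.symm.injective, ?_⟩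
  intro g x
  obtain ⟨h, y, hy⟩ := hs (e.symm g) x
  refine ⟨e h, y, fun w => ?_⟩
  have := hy w
  simpa using this

section finiteIndex

variable {G : Type} [Group G]

/-- the domain of the restriction of a virtual endomorphism of `G` to `H` -/
def VEnd.resD (v : VEnd G) (H : Subgroup G) : Subgroup H where
  carrier := {h | (h : G) ∈ v.D ∧ v.f h ∈ H}
  one_mem' := ⟨v.D.one_mem, by
    change v.f (1 : G) ∈ H
    rw [v.one]; exact H.one_mem⟩
  mul_mem' := by
    rintro a b ⟨ha, ha'⟩ ⟨hb, hb'⟩
    refine ⟨v.D.mul_mem ha hb, ?_⟩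
    change v.f ((a : G) * b) ∈ H
    rw [v.mul _ ha _ hb]
    exact H.mul_mem ha' hb'
  inv_mem' := by
    rintro a ⟨ha, ha'⟩
    refine ⟨v.D.inv_mem ha, ?_⟩
    change v.f ((a : G)⁻¹) ∈ H
    rw [v.inv _ ha]
    exact H.inv_mem ha'

lemma VEnd.resD_finiteIndex (v : VEnd G) (H : Subgroup G) [H.FiniteIndex] :
    (v.resD H).FiniteIndex := by
  have := v.fi
  have h1 : (H.comap v.hom).FiniteIndex := by
    refine ⟨?_⟩
    rw [Subgroup.index_comap]
    have := Subgroup.isFiniteRelIndex_of_finiteIndex (H := H) (K := v.hom.range)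
    exact Subgroup.relIndex_ne_zero
  have h2 : ((H.comap v.hom).map v.D.subtype).FiniteIndex := by
    refine ⟨?_⟩
    rw [Subgroup.index_map_subtype]
    exact mul_ne_zero h1.index_ne_zero this.index_ne_zero
  have h3 : (((H.comap v.hom).map v.D.subtype).subgroupOf H).FiniteIndex := inferInstance
  have h4 : (((H.comap v.hom).map v.D.subtype).subgroupOf H) ≤ v.resD H := by
    intro h hh
    rw [Subgroup.mem_subgroupOf, Subgroup.mem_map] at hh
    obtain ⟨d, hd, hdh⟩ := hh
    have hd2 : v.f d ∈ H := hd
    have hdh' : (d : G) = h := hdh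
    refine ⟨?_, ?_⟩
    · rw [← hdh']; exact d.2
    · rw [← hdh']; exact hd2
  exact Subgroup.finiteIndex_of_le h4

/-- the restriction of a virtual endomorphism -/
noncomputable def VEnd.res (v : VEnd G) (H : Subgroup G) [H.FiniteIndex] : VEnd H where
  D := v.resD H
  f h := by
    classical
    exact if hh : v.f h ∈ H then ⟨v.f h, hh⟩ else 1
  fi := v.resD_finiteIndex H
  mul := by
    classical
    rintro a ⟨ha, ha'⟩ b ⟨hb, hb'⟩
    have hab : v.f ((a * b : H) : G) ∈ H := by
      change v.f ((a : G) * b) ∈ H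
      rw [v.mul _ ha _ hb]
      exact H.mul_mem ha' hb'
    rw [dif_pos hab, dif_pos ha', dif_pos hb']
    apply Subtype.ext
    exact v.mul _ ha _ hb

/-- A subgroup of finite index in a self-similar group is self-similar. -/
theorem SelfSimilar.subgroup (h : SelfSimilar G) (H : Subgroup G) [H.FiniteIndex] :
    SelfSimilar H := by
  classical
  obtain ⟨I, hI, v, hv⟩ := fam_of_selfSimilar h
  apply selfSimilar_of_fam
  refine ⟨I, hI, fun i => (v i).res H, ?_⟩
  intro K hK
  have h1 : K.map H.subtype = ⊥ := by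
    apply hv
    intro i
    refine ⟨?_, ?_⟩
    · rintro _ ⟨k, hk, rfl⟩
      exact ((hK i).1 hk).1
    · rintro _ ⟨k, hk, rfl⟩
      have h2 : (v i).f (k : G) ∈ H := ((hK i).1 hk).2
      refine ⟨((v i).res H).f k, (hK i).2 k hk, ?_⟩
      change (((v i).res H).f k : G) = (v i).f (k : G)
      simp only [VEnd.res]
      rw [dif_pos h2]
  rw [eq_bot_iff]
  intro k hk
  have h3 : (k : G) ∈ K.map H.subtype := ⟨k, hk, rfl⟩
  rw [h1, Subgroup.mem_bot] at h3
  rw [Subgroup.mem_bot]
  exact Subtype.ext h3

/-- the extension of a virtual endomorphism of a subgroup of finite index -/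
noncomputable def VEnd.ext (H : Subgroup G) [hH : H.FiniteIndex] (v : VEnd H) : VEnd G where
  D := v.D.map H.subtype
  f g := by
    classical
    exact if hg : g ∈ H then (v.f ⟨g, hg⟩ : G) else 1
  fi := by
    have := v.fi
    refine ⟨?_⟩
    rw [Subgroup.index_map_subtype]
    exact mul_ne_zero this.index_ne_zero hH.index_ne_zero
  mul := by
    classical
    rintro _ ⟨a, ha, rfl⟩ _ ⟨b, hb, rfl⟩
    have h1 : H.subtype a ∈ H := a.2
    have h2 : H.subtype b ∈ H := b.2
    have h3 : H.subtype a * H.subtype b ∈ H := H.mul_mem h1 h2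
    rw [dif_pos h1, dif_pos h2, dif_pos h3]
    have h4 := v.mul a ha b hb
    have h5 : (⟨H.subtype a * H.subtype b, h3⟩ : H) = a * b := Subtype.ext rfl
    rw [h5, h4]
    rfl

/-- A group with a self-similar subgroup of finite index is self-similar. -/
theorem SelfSimilar.of_subgroup (H : Subgroup G) [hH : H.FiniteIndex] (h : SelfSimilar H) :
    SelfSimilar G := by
  classical
  obtain ⟨I, hI, v, hv⟩ := fam_of_selfSimilar h
  apply selfSimilar_of_fam
  refine ⟨Option I, inferInstance, fun o =>
    match o with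
    | none => ⟨H, id, hH, fun _ _ _ _ => rfl⟩
    | some i => VEnd.ext H (v i), ?_⟩
  intro K hK
  have hKH : K ≤ H := (hK none).1
  have h1 : K.subgroupOf H = ⊥ := by
    apply hv
    intro i
    have h2 := hK (some i)
    refine ⟨?_, ?_⟩
    · intro k hk
      obtain ⟨d, hd, hdk⟩ := h2.1 hk
      have : d = k := Subtype.ext hdk
      rwa [← this]
    · intro k hk
      have h3 := h2.2 _ hk
      have h4 : (VEnd.ext H (v i)).f (k : G) = ((v i).f k : G) := by
        change (if hg : (k : G) ∈ H then ((v i).f ⟨k, hg⟩ : G) else 1) = _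
        rw [dif_pos k.2]
      rw [Subgroup.mem_subgroupOf, ← h4]
      exact h3
  rw [eq_bot_iff]
  intro k hk
  have h3 : (⟨k, hKH hk⟩ : H) ∈ K.subgroupOf H := hk
  rw [h1, Subgroup.mem_bot] at h3
  rw [Subgroup.mem_bot]
  exact congrArg Subtype.val h3

end finiteIndex

/-- Separation lemma: if the self-similar group `R` is a retract of `G` (`r ∘ ι = id`) and `τ` is an
endomorphism of `G` with `r (τ^k g) ≠ 1` for some `k`, whenever `g ≠ 1`, then `G` is
self-similar. -/
theorem selfSimilar_of_separation {G R : Type} [Group G] [Group R] (ι : R →* G) (r : G →* R)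
    (hr : ∀ x, r (ι x) = x) (τ : G →* G) (hτ : ∀ g : G, g ≠ 1 → ∃ k : ℕ, r (τ^[k] g) ≠ 1)
    (hR : SelfSimilar R) : SelfSimilar G := by
  classical
  obtain ⟨I, hI, v, hv⟩ := fam_of_selfSimilar hR
  apply selfSimilar_of_fam
  refine ⟨Option I, inferInstance, fun o =>
    match o with
    | none => ⟨⊤, τ, inferInstance, fun _ _ _ _ => map_mul _ _ _⟩
    | some i => ⟨(v i).D.comap r, fun g => ι ((v i).f (r g)), ?_, ?_⟩, ?_⟩
  · have := (v i).fi
    refine ⟨?_⟩
    rw [Subgroup.index_comap]
    have := Subgroup.isFiniteRelIndex_of_finiteIndex (H := (v i).D) (K := r.range)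
    exact Subgroup.relIndex_ne_zero
  · intro a ha b hb
    rw [map_mul, (v i).mul _ ha _ hb, map_mul]
  · intro K hK
    have h1 : K.map r = ⊥ := by
      apply hv
      intro i
      have h2 := hK (some i)
      refine ⟨?_, ?_⟩
      · rintro _ ⟨k, hk, rfl⟩
        exact h2.1 hk
      · rintro _ ⟨k, hk, rfl⟩
        refine ⟨ι ((v i).f (r k)), h2.2 k hk, hr _⟩
    have h3 : ∀ (n : ℕ), ∀ k ∈ K, τ^[n] k ∈ K := by
      intro n
      induction n with
      | zero => intro k hk; exact hk
      | succ n ih =>
        intro k hk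
        rw [Function.iterate_succ_apply]
        exact ih _ ((hK none).2 k hk)
    rw [eq_bot_iff]
    intro g hg
    rw [Subgroup.mem_bot]
    by_contra hne
    obtain ⟨k, hk⟩ := hτ g hne
    apply hk
    have h4 : r (τ^[k] g) ∈ K.map r := ⟨_, h3 k g hg, rfl⟩
    rwa [h1, Subgroup.mem_bot] at h4

end Pool.Agent.MP505b0b
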