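import Mathlib
import Pool.Agent.Lib.MP_505b0b_al.SS

/-!
# Star amalgams along centralizers, the big powers property of free groups, and the Sanov subgroup
-/

namespace Pool.Agent.MP505b0b

open Monoid

theorem BigPowers.of_discriminating {G R : Type} [Group G] [Group R] (hR : BigPowers R)
    (f : ℕ → G →* R) (hf : ∀ g : G, g ≠ 1 → ∃ K : ℕ, ∀ k : ℕ, K ≤ k → f k g ≠ 1) :
    BigPowers G := by
  intro w hw c L e' he' hL
  have h1 : ∀ L : List (ℤ × G), (∀ p ∈ L, p.1 ≠ 0 ∧ ¬ Commute p.2 w) →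
      ∃ K : ℕ, ∀ k : ℕ, K ≤ k → ∀ p ∈ L, ¬ Commute (f k p.2) (f k w) := by
    intro L
    induction L with
    | nil => intro _; exact ⟨0, fun k _ p hp => absurd hp (List.not_mem_nil)⟩
    | cons q L ih =>
      intro hL
      obtain ⟨K1, hK1⟩ := ih (fun p hp => hL p (List.mem_cons_of_mem _ hp))
      have h2 := (hL q List.mem_cons_self).2
      have h3 : q.2 * w * (w * q.2)⁻¹ ≠ 1 := by
        intro h; exact h2 (mul_inv_eq_one.1 h)
      obtain ⟨K2, hK2⟩ := hf _ h3
      refine ⟨max K1 K2, fun k hk p hp => ?_⟩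
      rcases List.mem_cons.1 hp with rfl | hp
      · intro hc
        apply hK2 k (le_trans (le_max_right _ _) hk)
        rw [map_mul, map_inv, map_mul, map_mul, mul_inv_eq_one]
        exact hc
      · exact hK1 k (le_trans (le_max_left _ _) hk) p hp
  obtain ⟨K1, hK1⟩ := h1 L hL
  obtain ⟨K2, hK2⟩ := hf w hw
  set k0 := max K1 K2 with hk0
  obtain ⟨K, hK⟩ := hR (f k0 w) (hK2 k0 (le_max_right _ _)) (f k0 c)
    (L.map fun p => (p.1, f k0 p.2)) e' he' (by
      intro p hp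
      rw [List.mem_map] at hp
      obtain ⟨q, hq, rfl⟩ := hp
      exact ⟨(hL q hq).1, hK1 k0 (le_max_left _ _) q hq⟩)
  refine ⟨K, fun k hk h => hK k hk ?_⟩
  have h2 := congrArg (f k0) h
  rw [map_one, map_mul, map_mul, map_list_prod, map_zpow, List.map_map] at h2
  rw [List.map_map]
  refine Eq.trans ?_ h2
  congr 3
  apply List.map_congr_left
  intro p _
  simp

theorem BigPowers.of_injective {G R : Type} [Group G] [Group R] (hR : BigPowers R)
    (f : G →* R) (hf : Function.Injective f) : BigPowers G := by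
  refine hR.of_discriminating (fun _ => f) (fun g hg => ⟨0, fun k _ h => hg ?_⟩)
  apply hf
  rw [h, map_one]

section star

variable {R : Type} [Group R] (w : R) {ι : Type} (H : ι → Subgroup R)
  (hC : ∀ i, Subgroup.centralizer {w} ≤ H i)

/-- The star amalgam: the free product of the subgroups `H i` of `R` amalgamated along the common
subgroup `C = Z_R(w)`, the centralizer of `w` in `R`. -/
abbrev Star : Type := PushoutI (fun i => Subgroup.inclusion (hC i))

lemma w_mem : w ∈ Subgroup.centralizer {w} := by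
  rw [Subgroup.mem_centralizer_singleton_iff]

variable (n : ι → ℤ)

/-- The homomorphism `Star → R` which is conjugation by `w ^ (k n_i)` on `H i`. -/
def fk (k : ℤ) : Star w H hC →* R :=
  PushoutI.lift (fun i => (MulAut.conj (w ^ (k * n i))).toMonoidHom.comp (H i).subtype)
    (Subgroup.centralizer {w}).subtype (by
      intro i
      ext c
      have h1 : (c : R) * w = w * c := Subgroup.mem_centralizer_singleton_iff.1 c.2
      have h2 : Commute (w ^ (k * n i)) (c : R) := Commute.zpow_left (by exact h1.symm) _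
      change w ^ (k * n i) * (c : R) * (w ^ (k * n i))⁻¹ = c
      rw [h2.eq, mul_inv_cancel_right])

lemma fk_of (k : ℤ) (i : ι) (h : H i) :
    fk w H hC n k (PushoutI.of (φ := fun i => Subgroup.inclusion (hC i)) i h) =
      w ^ (k * n i) * (h : R) * (w ^ (k * n i))⁻¹ := by
  unfold fk
  rw [PushoutI.lift_of]
  rfl

lemma fk_base (k : ℤ) (c : Subgroup.centralizer {w}) :
    fk w H hC n k (PushoutI.base (fun i => Subgroup.inclusion (hC i)) c) = (c : R) := by
  unfold fk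
  rw [PushoutI.lift_base]
  rfl

/-- The endomorphism of the star which is conjugation by `w ^ n_i` on `H i`. -/
def tau : Star w H hC →* Star w H hC :=
  PushoutI.lift (fun i => (MulAut.conj
      ((PushoutI.base (fun i => Subgroup.inclusion (hC i)) ⟨w, w_mem w⟩) ^ (n i))).toMonoidHom.comp
        (PushoutI.of (φ := fun i => Subgroup.inclusion (hC i)) i))
    (PushoutI.base (fun i => Subgroup.inclusion (hC i))) (by
      intro i
      ext c
      have h1 : (c : R) * w = w * c := Subgroup.mem_centralizer_singleton_iff.1 c.2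
      have h0 : Commute (⟨w, w_mem w⟩ : Subgroup.centralizer {w}) c := Subtype.ext h1.symm
      have h2 := h0.map (PushoutI.base (fun i => Subgroup.inclusion (hC i)))
      have h3 := h2.zpow_left (n i)
      change (PushoutI.base (fun i => Subgroup.inclusion (hC i)) ⟨w, w_mem w⟩) ^ (n i) *
        PushoutI.of (φ := fun i => Subgroup.inclusion (hC i)) i (Subgroup.inclusion (hC i) c) *
        ((PushoutI.base (fun i => Subgroup.inclusion (hC i)) ⟨w, w_mem w⟩) ^ (n i))⁻¹ =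
        PushoutI.base (fun i => Subgroup.inclusion (hC i)) c
      rw [PushoutI.of_apply_eq_base (fun i => Subgroup.inclusion (hC i)) i c]
      rw [h3.eq, mul_inv_cancel_right])

lemma fk_tau (k : ℤ) (g : Star w H hC) :
    fk w H hC n k (tau w H hC n g) = fk w H hC n (k + 1) g := by
  induction g using PushoutI.induction_on with
  | of i h =>
    have h1 : tau w H hC n (PushoutI.of (φ := fun i => Subgroup.inclusion (hC i)) i h) =
      (PushoutI.base (fun i => Subgroup.inclusion (hC i)) ⟨w, w_mem w⟩) ^ (n i) *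
        PushoutI.of (φ := fun i => Subgroup.inclusion (hC i)) i h *
        ((PushoutI.base (fun i => Subgroup.inclusion (hC i)) ⟨w, w_mem w⟩) ^ (n i))⁻¹ := by
      unfold tau
      rw [PushoutI.lift_of]
      rfl
    rw [h1, map_mul, map_mul, map_inv, map_zpow, fk_base, fk_of, fk_of]
    have h2 : w ^ ((k + 1) * n i) = w ^ (n i) * w ^ (k * n i) := by
      rw [← zpow_add]; congr 1; ring
    rw [h2]
    group
  | base c =>
    have h1 : tau w H hC n (PushoutI.base (fun i => Subgroup.inclusion (hC i)) c) =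
      PushoutI.base (fun i => Subgroup.inclusion (hC i)) c := by
      unfold tau
      rw [PushoutI.lift_base]
    rw [h1, fk_base, fk_base]
  | mul x y hx hy => rw [map_mul, map_mul, map_mul, hx, hy]

lemma fk_iterate (k : ℕ) : ∀ (j : ℤ) (g : Star w H hC),
    fk w H hC n j ((tau w H hC n)^[k] g) = fk w H hC n (j + k) g := by
  induction k with
  | zero => intro j g; simp
  | succ k ih =>
    intro j g
    rw [Function.iterate_succ_apply, ih, fk_tau]
    have h1 : j + (k : ℤ) + 1 = j + ((k + 1 : ℕ) : ℤ) := by push_cast; ring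
    rw [h1]

/-- reduced words -/
def Red : List (Σ i, H i) → Prop
  | [] => True
  | p :: L => (p.2 : R) ∉ Subgroup.centralizer {w} ∧ (∀ q ∈ L.head?, p.1 ≠ q.1) ∧ Red L

/-- value of a word -/
def val (L : List (Σ i, H i)) : Star w H hC :=
  (L.map fun p => PushoutI.of (φ := fun i => Subgroup.inclusion (hC i)) p.1 p.2).prod

lemma exists_red_mul (i : ι) (h : H i) (L : List (Σ i, H i)) (hL : Red w H L) :
    ∃ (c : Subgroup.centralizer {w}) (L' : List (Σ i, H i)), Red w H L' ∧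
      PushoutI.of (φ := fun i => Subgroup.inclusion (hC i)) i h * val w H hC L =
        PushoutI.base (fun i => Subgroup.inclusion (hC i)) c * val w H hC L' := by
  classical
  have base_eq : ∀ (j : ι) (x : H j) (hx : (x : R) ∈ Subgroup.centralizer {w}),
      PushoutI.of (φ := fun i => Subgroup.inclusion (hC i)) j x =
        PushoutI.base (fun i => Subgroup.inclusion (hC i)) ⟨x, hx⟩ := by
    intro j x hx
    rw [← PushoutI.of_apply_eq_base (fun i => Subgroup.inclusion (hC i)) j ⟨x, hx⟩]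
    rfl
  by_cases hh : (h : R) ∈ Subgroup.centralizer {w}
  · refine ⟨⟨h, hh⟩, L, hL, ?_⟩
    rw [base_eq i h hh]
  · cases L with
    | nil =>
      refine ⟨1, [⟨i, h⟩], ⟨hh, by simp, trivial⟩, ?_⟩
      rw [map_one, one_mul]
      simp [val]
    | cons q L =>
      obtain ⟨j, x⟩ := q
      obtain ⟨hq1, hq2, hq3⟩ := hL
      by_cases hij : i = j
      · subst hij
        have hval : PushoutI.of (φ := fun i => Subgroup.inclusion (hC i)) i h *
            val w H hC (⟨i, x⟩ :: L) =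
            PushoutI.of (φ := fun i => Subgroup.inclusion (hC i)) i (h * x) * val w H hC L := by
          simp only [val, List.map_cons, List.prod_cons, map_mul, mul_assoc]
        by_cases hx : ((h * x : H i) : R) ∈ Subgroup.centralizer {w}
        · refine ⟨⟨_, hx⟩, L, hq3, ?_⟩
          rw [hval, base_eq i _ hx]
        · refine ⟨1, ⟨i, h * x⟩ :: L, ⟨hx, hq2, hq3⟩, ?_⟩
          rw [map_one, one_mul, hval]
          simp only [val, List.map_cons, List.prod_cons]
      · refine ⟨1, ⟨i, h⟩ :: ⟨j, x⟩ :: L, ⟨hh, ?_, hq1, hq2, hq3⟩, ?_⟩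
        · intro q hq
          simp only [List.head?_cons, Option.mem_def, Option.some.injEq] at hq
          subst hq
          exact hij
        · rw [map_one, one_mul]
          simp only [val, List.map_cons, List.prod_cons]

lemma exists_red (g : Star w H hC) :
    ∃ (c : Subgroup.centralizer {w}) (L : List (Σ i, H i)), Red w H L ∧
      g = PushoutI.base (fun i => Subgroup.inclusion (hC i)) c * val w H hC L := by
  -- the set of elements which have such a form is stable under left multiplication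
  have hstab : ∀ g : Star w H hC, ∀ (c : Subgroup.centralizer {w}) (L : List (Σ i, H i)),
      Red w H L → ∃ (c' : Subgroup.centralizer {w}) (L' : List (Σ i, H i)), Red w H L' ∧
        g * (PushoutI.base (fun i => Subgroup.inclusion (hC i)) c * val w H hC L) =
        PushoutI.base (fun i => Subgroup.inclusion (hC i)) c' * val w H hC L' := by
    intro g
    induction g using PushoutI.induction_on with
    | of i h =>
      intro c L hL
      obtain ⟨c', L', hL', he⟩ := exists_red_mul w H hC i (h * Subgroup.inclusion (hC i) c) L hL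
      refine ⟨c', L', hL', ?_⟩
      rw [← he, map_mul, PushoutI.of_apply_eq_base (fun i => Subgroup.inclusion (hC i)) i c,
        mul_assoc]
    | base d =>
      intro c L hL
      exact ⟨d * c, L, hL, by rw [map_mul, mul_assoc]⟩
    | mul x y hx hy =>
      intro c L hL
      obtain ⟨c1, L1, hL1, h1⟩ := hy c L hL
      obtain ⟨c2, L2, hL2, h2⟩ := hx c1 L1 hL1
      exact ⟨c2, L2, hL2, by rw [mul_assoc, h1, h2]⟩
  obtain ⟨c, L, hL, h⟩ := hstab g 1 [] trivial
  refine ⟨c, L, hL, ?_⟩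
  rw [← h, map_one]
  simp [val]

/-- exponents and syllables -/
def conv : ℤ → List (Σ i, H i) → List (ℤ × R)
  | _, [] => []
  | m, p :: L => (n p.1 - m, (p.2 : R)) :: conv (n p.1) L

/-- last exponent -/
def lastE : ℤ → List (Σ i, H i) → ℤ
  | m, [] => m
  | _, p :: L => lastE (n p.1) L

lemma fk_val (k : ℤ) (L : List (Σ i, H i)) : ∀ m : ℤ,
    fk w H hC n k (val w H hC L) =
      w ^ (k * m) * ((conv H n m L).map fun p => w ^ (k * p.1) * p.2).prod *
        w ^ (k * (- lastE H n m L)) := by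
  induction L with
  | nil =>
    intro m
    simp [val, conv, lastE]
  | cons p L ih =>
    intro m
    have h1 : val w H hC (p :: L) =
      PushoutI.of (φ := fun i => Subgroup.inclusion (hC i)) p.1 p.2 * val w H hC L := by
      simp only [val, List.map_cons, List.prod_cons]
    rw [h1, map_mul, fk_of, ih (n p.1)]
    simp only [conv, lastE, List.map_cons, List.prod_cons]
    have h2 : w ^ (k * n p.1) = w ^ (k * m) * w ^ (k * (n p.1 - m)) := by
      rw [← zpow_add]; congr 1; ring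
    rw [show w ^ (k * m) * (w ^ (k * (n p.1 - m)) * (p.2 : R) *
      (List.map (fun p => w ^ (k * p.1) * p.2) (conv H n (n p.1) L)).prod) =
        w ^ (k * n p.1) * (p.2 : R) *
          (List.map (fun p => w ^ (k * p.1) * p.2) (conv H n (n p.1) L)).prod by
      rw [h2]; simp only [mul_assoc]]
    simp only [mul_assoc]
    rw [inv_mul_cancel_left]

lemma conv_spec (hn : Function.Injective n) (L : List (Σ i, H i)) : ∀ m : ℤ, Red w H L →
    (∀ q ∈ L.head?, n q.1 ≠ m) →
    ∀ p ∈ conv H n m L, p.1 ≠ 0 ∧ ¬ Commute p.2 w := by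
  induction L with
  | nil => intro m _ _ p hp; exact absurd hp (List.not_mem_nil)
  | cons q L ih =>
    intro m hL hm p hp
    obtain ⟨h1, h2, h3⟩ := hL
    rcases List.mem_cons.1 hp with rfl | hp
    · refine ⟨?_, ?_⟩
      · have := hm q (by simp)
        change n q.1 - m ≠ 0
        omega
      · intro hc
        apply h1
        rw [Subgroup.mem_centralizer_singleton_iff]
        exact hc
    · refine ih (n q.1) h3 ?_ p hp
      intro q' hq' he
      exact h2 q' hq' (hn he).symm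

lemma lastE_ne (hn0 : ∀ i, n i ≠ 0) (L : List (Σ i, H i)) : ∀ m : ℤ, (m ≠ 0 ∨ L ≠ []) →
    lastE H n m L ≠ 0 := by
  induction L with
  | nil =>
    intro m hm
    rcases hm with hm | hm
    · exact hm
    · exact absurd rfl hm
  | cons q L ih =>
    intro m _
    exact ih (n q.1) (Or.inl (hn0 _))

/-- The homomorphisms `fk` discriminate the star. -/
theorem fk_sep (hR : BigPowers R) (hw : w ≠ 1) (hn : Function.Injective n) (hn0 : ∀ i, n i ≠ 0)
    (g : Star w H hC) (hg : g ≠ 1) :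
    ∃ K : ℕ, ∀ k : ℕ, K ≤ k → fk w H hC n k g ≠ 1 := by
  obtain ⟨c, L, hL, rfl⟩ := exists_red w H hC g
  cases hLe : L with
  | nil =>
    subst hLe
    refine ⟨0, fun k _ h => hg ?_⟩
    rw [map_mul, fk_base] at h
    simp only [val, List.map_nil, List.prod_nil, map_one, mul_one] at h ⊢
    have : c = 1 := Subtype.ext h
    rw [this, map_one]
  | cons q L' =>
    rw [← hLe]
    have h1 := conv_spec w H n hn L 0 hL (fun q _ => hn0 q.1)
    have h2 := lastE_ne H n hn0 L 0 (Or.inr (by rw [hLe]; exact List.cons_ne_nil _ _))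
    obtain ⟨K, hK⟩ := hR w hw (c : R) (conv H n 0 L) (- lastE H n 0 L) (neg_ne_zero.2 h2) h1
    refine ⟨K, fun k hk h => hK k hk ?_⟩
    rw [map_mul, fk_base, fk_val w H hC n k L 0] at h
    rw [← h]
    simp only [mul_zero, zpow_zero, one_mul, mul_assoc]

end star

theorem BigPowers.star {R : Type} [Group R] (hR : BigPowers R) (w : R) (hw : w ≠ 1)
    {ι : Type} [Finite ι] (H : ι → Subgroup R)
    (hC : ∀ i, Subgroup.centralizer {w} ≤ H i) : BigPowers (Star w H hC) := by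
  obtain ⟨m, ⟨e⟩⟩ := Finite.exists_equiv_fin ι
  have hn : Function.Injective (fun i => ((e i : ℕ) : ℤ) + 1) := by
    intro a b hab
    apply e.injective
    apply Fin.ext
    have : ((e a : ℕ) : ℤ) + 1 = ((e b : ℕ) : ℤ) + 1 := hab
    omega
  have hn0 : ∀ i, ((e i : ℕ) : ℤ) + 1 ≠ 0 := by intro i; omega
  exact hR.of_discriminating (fun k => fk w H hC (fun i => ((e i : ℕ) : ℤ) + 1) k)
    (fun g hg => fk_sep w H hC _ hR hw hn hn0 g hg)

theorem SelfSimilar.star {R : Type} [Group R] (hS : SelfSimilar R) (hR : BigPowers R) (w : R)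
    (hw : w ≠ 1) {ι : Type} [Finite ι] (i0 : ι) (H : ι → Subgroup R)
    (hC : ∀ i, Subgroup.centralizer {w} ≤ H i) (h0 : H i0 = ⊤) :
    SelfSimilar (Star w H hC) := by
  obtain ⟨m, ⟨e⟩⟩ := Finite.exists_equiv_fin ι
  have hn : Function.Injective (fun i => ((e i : ℕ) : ℤ) + 1) := by
    intro a b hab
    apply e.injective
    apply Fin.ext
    have : ((e a : ℕ) : ℤ) + 1 = ((e b : ℕ) : ℤ) + 1 := hab
    omega
  have hn0 : ∀ i, ((e i : ℕ) : ℤ) + 1 ≠ 0 := by intro i; omega
  let j : R →* H i0 :=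
    { toFun := fun x => ⟨x, by rw [h0]; exact Subgroup.mem_top x⟩
      map_one' := rfl
      map_mul' := fun _ _ => rfl }
  refine selfSimilar_of_separation
    ((PushoutI.of (φ := fun i => Subgroup.inclusion (hC i)) i0).comp j)
    (fk w H hC (fun i => ((e i : ℕ) : ℤ) + 1) 0) ?_ (tau w H hC (fun i => ((e i : ℕ) : ℤ) + 1))
    ?_ hS
  · intro x
    rw [MonoidHom.comp_apply, fk_of]
    simp [j]
  · intro g hg
    obtain ⟨K, hK⟩ := fk_sep w H hC _ hR hw hn hn0 g hg
    refine ⟨K, ?_⟩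
    rw [fk_iterate, zero_add]
    exact hK K le_rfl

end Pool.Agent.MP505b0b

namespace Pool.Agent.MP505b0b

open Matrix

/-- the generators -/
def genA (i : ℤ) : SpecialLinearGroup (Fin 2) ℤ :=
  ⟨!![1 + 4 * i, -8 * i ^ 2; 2, 1 - 4 * i], by
    rw [Matrix.det_fin_two_of]; ring⟩

/-- ping-pong sets -/
def setX (i : ℤ) : Set (SpecialLinearGroup (Fin 2) ℤ) :=
  {g | (0 ≤ g.1 0 0 - 2 * (i * g.1 1 0) ∧ g.1 0 0 - 2 * (i * g.1 1 0) < g.1 1 0) ∨
    (g.1 1 0 < g.1 0 0 - 2 * (i * g.1 1 0) ∧ g.1 0 0 - 2 * (i * g.1 1 0) ≤ 0)}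

/-- ping-pong sets -/
def setY (i : ℤ) : Set (SpecialLinearGroup (Fin 2) ℤ) :=
  {g | (- g.1 1 0 ≤ g.1 0 0 - 2 * (i * g.1 1 0) ∧ g.1 0 0 - 2 * (i * g.1 1 0) < 0) ∨
    (0 < g.1 0 0 - 2 * (i * g.1 1 0) ∧ g.1 0 0 - 2 * (i * g.1 1 0) ≤ - g.1 1 0)}

/-- both sets lie in this one -/
def setZ (i : ℤ) : Set (SpecialLinearGroup (Fin 2) ℤ) :=
  {g | (0 < g.1 1 0 ∧ - g.1 1 0 ≤ g.1 0 0 - 2 * (i * g.1 1 0) ∧
      g.1 0 0 - 2 * (i * g.1 1 0) < g.1 1 0) ∨
    (g.1 1 0 < 0 ∧ g.1 1 0 < g.1 0 0 - 2 * (i * g.1 1 0) ∧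
      g.1 0 0 - 2 * (i * g.1 1 0) ≤ - g.1 1 0)}

lemma setX_sub (i : ℤ) : setX i ⊆ setZ i := by
  intro g hg
  simp only [setX, setZ, Set.mem_ofPred_eq] at *
  omega

lemma setY_sub (i : ℤ) : setY i ⊆ setZ i := by
  intro g hg
  simp only [setY, setZ, Set.mem_ofPred_eq] at *
  omega

lemma setZ_lt {i j : ℤ} (h : i < j) (g : SpecialLinearGroup (Fin 2) ℤ) (hi : g ∈ setZ i)
    (hj : g ∈ setZ j) : False := by
  simp only [setZ, Set.mem_ofPred_eq] at *
  rcases hi with ⟨h1, h2, h3⟩ | ⟨h1, h2, h3⟩ <;> rcases hj with ⟨h4, h5, h6⟩ | ⟨h4, h5, h6⟩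
  · have : (i + 1) * g.1 1 0 ≤ j * g.1 1 0 := mul_le_mul_of_nonneg_right (by omega) h1.le
    have h7 : (i + 1) * g.1 1 0 = i * g.1 1 0 + g.1 1 0 := by ring
    omega
  · omega
  · omega
  · have : j * g.1 1 0 ≤ (i + 1) * g.1 1 0 := mul_le_mul_of_nonpos_right (by omega) h1.le
    have h7 : (i + 1) * g.1 1 0 = i * g.1 1 0 + g.1 1 0 := by ring
    omega

lemma setZ_disj {i j : ℤ} (h : i ≠ j) : Disjoint (setZ i) (setZ j) := by
  rw [Set.disjoint_left]
  intro g hi hj
  rcases lt_or_gt_of_ne h with h | h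
  · exact setZ_lt h g hi hj
  · exact setZ_lt h g hj hi

lemma setXY_disj (i : ℤ) : Disjoint (setX i) (setY i) := by
  rw [Set.disjoint_left]
  intro g hi hj
  simp only [setX, setY, Set.mem_ofPred_eq] at *
  omega

lemma col_ne (g : SpecialLinearGroup (Fin 2) ℤ) : ¬ (g.1 0 0 = 0 ∧ g.1 1 0 = 0) := by
  rintro ⟨h1, h2⟩
  have h := g.2
  rw [Matrix.det_fin_two, h1, h2] at h
  simp at h

lemma mul00 (i : ℤ) (g : SpecialLinearGroup (Fin 2) ℤ) :
    (genA i * g).1 0 0 = (1 + 4 * i) * g.1 0 0 + (-8 * i ^ 2) * g.1 1 0 := by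
  have h : (genA i * g).1 = (genA i).1 * g.1 := rfl
  rw [h, Matrix.mul_apply, Fin.sum_univ_two]
  simp [genA]

lemma mul10 (i : ℤ) (g : SpecialLinearGroup (Fin 2) ℤ) :
    (genA i * g).1 1 0 = 2 * g.1 0 0 + (1 - 4 * i) * g.1 1 0 := by
  have h : (genA i * g).1 = (genA i).1 * g.1 := rfl
  rw [h, Matrix.mul_apply, Fin.sum_univ_two]
  simp [genA]

lemma genA_smul_X (i : ℤ) (g : SpecialLinearGroup (Fin 2) ℤ) (hg : g ∉ setY i) :
    genA i * g ∈ setX i := by
  have h0 := col_ne g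
  have e1 : (genA i * g).1 0 0 - 2 * (i * (genA i * g).1 1 0) = g.1 0 0 - 2 * (i * g.1 1 0) := by
    rw [mul00, mul10]; ring
  have e2 : (genA i * g).1 1 0 = g.1 1 0 + 2 * (g.1 0 0 - 2 * (i * g.1 1 0)) := by
    rw [mul10]; ring
  simp only [setX, setY, Set.mem_ofPred_eq] at *
  rw [e1, e2]
  by_cases h1 : g.1 0 0 - 2 * (i * g.1 1 0) = 0
  · have h2 : g.1 1 0 ≠ 0 := by
      intro h2
      rw [h2] at h1
      simp at h1
      exact h0 ⟨h1, h2⟩
    omega
  · omega

lemma genA_smul_Y (i : ℤ) (g : SpecialLinearGroup (Fin 2) ℤ) (hg : g ∉ setX i) :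
    (genA i)⁻¹ * g ∈ setY i := by
  obtain ⟨h, rfl⟩ : ∃ h, g = genA i * h := ⟨(genA i)⁻¹ * g, by rw [mul_inv_cancel_left]⟩
  rw [inv_mul_cancel_left]
  by_contra hh
  exact hg (genA_smul_X i h hh)

lemma setX_nonempty (i : ℤ) : (setX i).Nonempty := by
  refine ⟨⟨!![2 * i, -1; 1, 0], by rw [Matrix.det_fin_two_of]; ring⟩, ?_⟩
  simp [setX]

/-- the representation -/
def rho : FreeGroup ℤ →* SpecialLinearGroup (Fin 2) ℤ := FreeGroup.lift genA

theorem rho_injective : Function.Injective rho := by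
  refine FreeGroup.injective_lift_of_ping_pong (α := SpecialLinearGroup (Fin 2) ℤ) genA setX setY
    setX_nonempty ?_ ?_ ?_ ?_ ?_
  · intro i j hij
    exact (setZ_disj hij).mono (setX_sub i) (setX_sub j)
  · intro i j hij
    exact (setZ_disj hij).mono (setY_sub i) (setY_sub j)
  · intro i j
    by_cases hij : i = j
    · subst hij; exact setXY_disj i
    · exact (setZ_disj hij).mono (setX_sub i) (setY_sub j)
  · rintro i _ ⟨g, hg, rfl⟩
    exact genA_smul_X i g hg
  · rintro i _ ⟨g, hg, rfl⟩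
    exact genA_smul_Y i g hg

end Pool.Agent.MP505b0b

namespace Pool.Agent.MP505b0b

open Matrix

section two

variable {K : Type} [CommRing K]

lemma comm_iff (A B : Matrix (Fin 2) (Fin 2) K) : A * B = B * A ↔
    A 0 1 * B 1 0 = B 0 1 * A 1 0 ∧ A 0 1 * (B 0 0 - B 1 1) = B 0 1 * (A 0 0 - A 1 1) ∧
      A 1 0 * (B 0 0 - B 1 1) = B 1 0 * (A 0 0 - A 1 1) := by
  constructor
  · intro h
    have h00 := congrFun (congrFun h 0) 0
    have h01 := congrFun (congrFun h 0) 1
    have h10 := congrFun (congrFun h 1) 0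
    simp only [Matrix.mul_apply, Fin.sum_univ_two] at h00 h01 h10
    refine ⟨?_, ?_, ?_⟩
    · linear_combination h00
    · linear_combination -h01
    · linear_combination h10
  · rintro ⟨h1, h2, h3⟩
    ext i j
    fin_cases i <;> fin_cases j <;>
      simp only [Matrix.mul_apply, Fin.sum_univ_two, Fin.zero_eta, Fin.mk_one, Fin.isValue]
    · linear_combination h1
    · linear_combination -h2
    · linear_combination h3
    · linear_combination -h1

/-- two matrices which commute with the same nonscalar matrix commute -/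
lemma comm_trans [IsDomain K] (A B C : Matrix (Fin 2) (Fin 2) K)
    (hC : ¬ (C 0 1 = 0 ∧ C 1 0 = 0 ∧ C 0 0 - C 1 1 = 0)) (hA : A * C = C * A) (hB : B * C = C * B) :
    A * B = B * A := by
  rw [comm_iff] at *
  obtain ⟨a1, a2, a3⟩ := hA
  obtain ⟨b1, b2, b3⟩ := hB
  by_cases h1 : C 0 1 = 0
  · by_cases h2 : C 1 0 = 0
    · have h3 : C 0 0 - C 1 1 ≠ 0 := fun h => hC ⟨h1, h2, h⟩
      rw [h1] at a1 a2 b1 b2
      rw [h2] at a1 a3 b1 b3
      have e1 : A 0 1 = 0 := by
        have : A 0 1 * (C 0 0 - C 1 1) = 0 := by linear_combination a2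
        exact (mul_eq_zero.1 this).resolve_right h3
      have e2 : B 0 1 = 0 := by
        have : B 0 1 * (C 0 0 - C 1 1) = 0 := by linear_combination b2
        exact (mul_eq_zero.1 this).resolve_right h3
      have e3 : A 1 0 = 0 := by
        have : A 1 0 * (C 0 0 - C 1 1) = 0 := by linear_combination a3
        exact (mul_eq_zero.1 this).resolve_right h3
      have e4 : B 1 0 = 0 := by
        have : B 1 0 * (C 0 0 - C 1 1) = 0 := by linear_combination b3
        exact (mul_eq_zero.1 this).resolve_right h3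
      rw [e1, e2, e3, e4]
      simp
    · refine ⟨?_, ?_, ?_⟩
      · apply mul_left_cancel₀ h2
        linear_combination (B 1 0) * a1 - (A 1 0) * b1
      · apply mul_left_cancel₀ h2
        linear_combination (B 0 0 - B 1 1) * a1 - (A 0 0 - A 1 1) * b1 +
          (A 1 0 * (B 0 0 - B 1 1) - B 1 0 * (A 0 0 - A 1 1)) * h1
      · apply mul_left_cancel₀ h2
        linear_combination (B 1 0) * a3 - (A 1 0) * b3
  · have h : A 0 1 * (B 0 0 - B 1 1) = B 0 1 * (A 0 0 - A 1 1) := by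
      apply mul_left_cancel₀ h1
      linear_combination (B 0 1) * a2 - (A 0 1) * b2
    refine ⟨?_, h, ?_⟩
    · apply mul_left_cancel₀ h1
      linear_combination (B 0 1) * a1 - (A 0 1) * b1
    · apply mul_left_cancel₀ h1
      linear_combination (C 1 0) * h - (B 0 0 - B 1 1) * a1 + (A 0 0 - A 1 1) * b1
end two

section content

/-- content of the trace-free part -/
def cont (M : Matrix (Fin 2) (Fin 2) ℤ) : ℕ :=
  Int.gcd (Int.gcd (M 0 1) (M 1 0)) (M 0 0 - M 1 1)

lemma dvd_cont (n : ℕ) (M : Matrix (Fin 2) (Fin 2) ℤ) :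
    n ∣ cont M ↔ (n : ℤ) ∣ M 0 1 ∧ (n : ℤ) ∣ M 1 0 ∧ (n : ℤ) ∣ M 0 0 - M 1 1 := by
  unfold cont
  constructor
  · intro h
    have h1 : (n : ℤ) ∣ ((Int.gcd (Int.gcd (M 0 1) (M 1 0)) (M 0 0 - M 1 1) : ℕ) : ℤ) :=
      Int.natCast_dvd_natCast.2 h
    have h2 := h1.trans (Int.gcd_dvd_left _ _)
    have h3 := h1.trans (Int.gcd_dvd_right _ _)
    exact ⟨h2.trans (Int.gcd_dvd_left _ _), h2.trans (Int.gcd_dvd_right _ _), h3⟩
  · rintro ⟨h1, h2, h3⟩
    have h4 : (n : ℤ) ∣ ((Int.gcd (M 0 1) (M 1 0) : ℕ) : ℤ) := Int.dvd_coe_gcd h1 h2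
    exact Int.natCast_dvd_natCast.1 (Int.dvd_coe_gcd h4 h3)

lemma cont_smul (k : ℤ) (u1 u2 u3 : ℤ) :
    Int.gcd (Int.gcd (k * u1) (k * u2)) (k * u3) = k.natAbs * Int.gcd (Int.gcd u1 u2) u3 := by
  rw [Int.gcd_mul_left]
  have : ((k.natAbs * Int.gcd u1 u2 : ℕ) : ℤ) = |k| * (Int.gcd u1 u2 : ℤ) := by
    rw [Nat.cast_mul, Int.natCast_natAbs]
  rw [this]
  rcases abs_cases k with ⟨h, _⟩ | ⟨h, _⟩
  · rw [h, Int.gcd_mul_left]
  · rw [h, show -k * (Int.gcd u1 u2 : ℤ) = k * (-(Int.gcd u1 u2 : ℤ)) by ring,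
      Int.gcd_mul_left, Int.neg_gcd]

lemma conj_entries (X C : SpecialLinearGroup (Fin 2) ℤ) :
    (X * C * X⁻¹).1 0 1 = - X.1 0 0 * X.1 0 1 * (C.1 0 0 - C.1 1 1) + X.1 0 0 ^ 2 * C.1 0 1
        - X.1 0 1 ^ 2 * C.1 1 0 ∧
    (X * C * X⁻¹).1 1 0 = X.1 1 0 * X.1 1 1 * (C.1 0 0 - C.1 1 1) + X.1 1 1 ^ 2 * C.1 1 0
        - X.1 1 0 ^ 2 * C.1 0 1 ∧
    (X * C * X⁻¹).1 0 0 - (X * C * X⁻¹).1 1 1 =
      (X.1 0 0 * X.1 1 1 + X.1 0 1 * X.1 1 0) * (C.1 0 0 - C.1 1 1) +
        2 * X.1 0 1 * X.1 1 1 * C.1 1 0 - 2 * X.1 0 0 * X.1 1 0 * C.1 0 1 ∧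
    (X * C * X⁻¹).1 0 0 + (X * C * X⁻¹).1 1 1 = C.1 0 0 + C.1 1 1 := by
  have h : (X * C * X⁻¹).1 = X.1 * C.1 * X.1.adjugate := rfl
  have hd : X.1 0 0 * X.1 1 1 - X.1 0 1 * X.1 1 0 = 1 := by
    rw [← Matrix.det_fin_two]; exact X.2
  rw [h, Matrix.adjugate_fin_two]
  simp only [Matrix.mul_apply, Fin.sum_univ_two, Matrix.of_apply, Matrix.cons_val_zero,
    Matrix.cons_val_one, Matrix.cons_val', Matrix.cons_val_fin_one]
  refine ⟨by ring, by ring, by ring, ?_⟩
  linear_combination (C.1 0 0 + C.1 1 1) * hd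

lemma cont_dvd_conj (X C : SpecialLinearGroup (Fin 2) ℤ) : cont C.1 ∣ cont (X * C * X⁻¹).1 := by
  obtain ⟨h1, h2, h3⟩ := (dvd_cont (cont C.1) C.1).1 dvd_rfl
  obtain ⟨e1, e2, e3, _⟩ := conj_entries X C
  rw [dvd_cont, e1, e2, e3]
  refine ⟨?_, ?_, ?_⟩
  · exact dvd_sub (dvd_add (h3.mul_left _) (h1.mul_left _)) (h2.mul_left _)
  · exact dvd_sub (dvd_add (h3.mul_left _) (h2.mul_left _)) (h1.mul_left _)
  · exact dvd_sub (dvd_add (h3.mul_left _) (h2.mul_left _)) (h1.mul_left _)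

lemma cont_conj (X C : SpecialLinearGroup (Fin 2) ℤ) : cont (X * C * X⁻¹).1 = cont C.1 := by
  apply Nat.dvd_antisymm
  · have h := cont_dvd_conj X⁻¹ (X * C * X⁻¹)
    have h2 : X⁻¹ * (X * C * X⁻¹) * X⁻¹⁻¹ = C := by group
    rwa [h2] at h
  · exact cont_dvd_conj X C

/-- parallel integer vectors with the same content are opposite or equal -/
lemma parallel (u1 u2 u3 v1 v2 v3 : ℤ) (h12 : u1 * v2 = v1 * u2) (h13 : u1 * v3 = v1 * u3)
    (h23 : u2 * v3 = v2 * u3)
    (hc : Int.gcd (Int.gcd u1 u2) u3 = Int.gcd (Int.gcd v1 v2) v3) :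
    (v1 = u1 ∧ v2 = u2 ∧ v3 = u3) ∨ (v1 = -u1 ∧ v2 = -u2 ∧ v3 = -u3) := by
  -- main step: if `u1 ≠ 0` then `v1 = ± u1`
  have key : ∀ u1 u2 u3 v1 v2 v3 k k' : ℤ, k * v1 = k' * u1 → k * v2 = k' * u2 →
      k * v3 = k' * u3 → k ≠ 0 → Int.gcd (Int.gcd u1 u2) u3 = Int.gcd (Int.gcd v1 v2) v3 →
      (v1 = u1 ∧ v2 = u2 ∧ v3 = u3) ∨ (v1 = -u1 ∧ v2 = -u2 ∧ v3 = -u3) := by
    intro u1 u2 u3 v1 v2 v3 k k' h1 h2 h3 hk hc
    have e1 := cont_smul k v1 v2 v3
    have e2 := cont_smul k' u1 u2 u3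
    rw [h1, h2, h3, e2, hc] at e1
    rcases Nat.eq_zero_or_pos (Int.gcd (Int.gcd v1 v2) v3) with h0 | h0
    · rw [h0] at hc
      rw [Int.gcd_eq_zero_iff] at h0 hc
      obtain ⟨a1, a2⟩ := h0
      obtain ⟨b1, b2⟩ := hc
      have a1' : Int.gcd v1 v2 = 0 := by exact_mod_cast a1
      have b1' : Int.gcd u1 u2 = 0 := by exact_mod_cast b1
      rw [Int.gcd_eq_zero_iff] at a1' b1'
      left
      rw [a1'.1, a1'.2, b1'.1, b1'.2, a2, b2]
      exact ⟨rfl, rfl, rfl⟩
    · have h4 : k'.natAbs = k.natAbs := Nat.eq_of_mul_eq_mul_right h0 e1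
      rcases Int.natAbs_eq_natAbs_iff.1 h4 with h5 | h5
      · left
        subst h5
        exact ⟨mul_left_cancel₀ hk h1, mul_left_cancel₀ hk h2, mul_left_cancel₀ hk h3⟩
      · right
        subst h5
        refine ⟨mul_left_cancel₀ hk ?_, mul_left_cancel₀ hk ?_, mul_left_cancel₀ hk ?_⟩
        · rw [h1]; ring
        · rw [h2]; ring
        · rw [h3]; ring
  by_cases h1 : u1 = 0
  · by_cases h2 : u2 = 0
    · by_cases h3 : u3 = 0
      · subst h1 h2 h3
        exact key 0 0 0 v1 v2 v3 1 0 (by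
          have : Int.gcd (Int.gcd v1 v2) v3 = 0 := by rw [← hc]; simp
          rw [Int.gcd_eq_zero_iff] at this
          have a1' : Int.gcd v1 v2 = 0 := by exact_mod_cast this.1
          rw [Int.gcd_eq_zero_iff] at a1'
          rw [a1'.1]; ring) (by
          have : Int.gcd (Int.gcd v1 v2) v3 = 0 := by rw [← hc]; simp
          rw [Int.gcd_eq_zero_iff] at this
          have a1' : Int.gcd v1 v2 = 0 := by exact_mod_cast this.1
          rw [Int.gcd_eq_zero_iff] at a1'
          rw [a1'.2]; ring) (by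
          have : Int.gcd (Int.gcd v1 v2) v3 = 0 := by rw [← hc]; simp
          rw [Int.gcd_eq_zero_iff] at this
          rw [this.2]; ring) one_ne_zero hc
      · exact key u1 u2 u3 v1 v2 v3 u3 v3 (by linear_combination -h13) (by linear_combination -h23)
          (by ring) h3 hc
    · exact key u1 u2 u3 v1 v2 v3 u2 v2 (by linear_combination -h12) (by ring)
        (by linear_combination h23) h2 hc
  · exact key u1 u2 u3 v1 v2 v3 u1 v1 (by ring) (by linear_combination h12)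
      (by linear_combination h13) h1 hc

end content

/-- If `C` commutes with `X C X⁻¹` in `SL(2, ℤ)` and `C` is not scalar, then `X C X⁻¹` is `C` or
`C⁻¹`. -/
lemma conj_eq_or (X C : SpecialLinearGroup (Fin 2) ℤ)
    (h : C * (X * C * X⁻¹) = (X * C * X⁻¹) * C) : X * C * X⁻¹ = C ∨ X * C * X⁻¹ = C⁻¹ := by
  have h' : C.1 * (X * C * X⁻¹).1 = (X * C * X⁻¹).1 * C.1 := congrArg Subtype.val h
  rw [comm_iff] at h'
  obtain ⟨h1, h2, h3⟩ := h'
  have hc := cont_conj X C
  obtain ⟨_, _, _, e4⟩ := conj_entries X C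
  set D := X * C * X⁻¹ with hD
  rcases parallel (C.1 0 1) (C.1 1 0) (C.1 0 0 - C.1 1 1) (D.1 0 1) (D.1 1 0) (D.1 0 0 - D.1 1 1)
    h1 h2 (by linear_combination h3) hc.symm with ⟨a1, a2, a3⟩ | ⟨a1, a2, a3⟩
  · left
    apply Subtype.ext
    ext i j
    fin_cases i <;> fin_cases j <;>
      simp only [Fin.zero_eta, Fin.mk_one, Fin.isValue]
    · change D.1 0 0 = C.1 0 0
      omega
    · exact a1
    · exact a2
    · change D.1 1 1 = C.1 1 1
      omega
  · right
    apply Subtype.ext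
    have h5 : (C⁻¹).1 = C.1.adjugate := rfl
    rw [h5, Matrix.adjugate_fin_two]
    ext i j
    fin_cases i <;> fin_cases j
    · change D.1 0 0 = C.1 1 1
      omega
    · exact a1
    · exact a2
    · change D.1 1 1 = C.1 0 0
      omega

/-- Commutative transitivity in the free group on `ℤ`. -/
theorem free_ct (a b c : FreeGroup ℤ) (hc : c ≠ 1) (ha : Commute a c) (hb : Commute b c) :
    Commute a b := by
  have h1 : (rho a).1 * (rho c).1 = (rho c).1 * (rho a).1 := by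
    have := congrArg rho ha.eq
    rw [map_mul, map_mul] at this
    exact congrArg Subtype.val this
  have h2 : (rho b).1 * (rho c).1 = (rho c).1 * (rho b).1 := by
    have := congrArg rho hb.eq
    rw [map_mul, map_mul] at this
    exact congrArg Subtype.val this
  have hns : ¬ ((rho c).1 0 1 = 0 ∧ (rho c).1 1 0 = 0 ∧ (rho c).1 0 0 - (rho c).1 1 1 = 0) := by
    rintro ⟨e1, e2, e3⟩
    apply hc
    have hd : (rho c).1 0 0 * (rho c).1 1 1 - (rho c).1 0 1 * (rho c).1 1 0 = 1 := by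
      rw [← Matrix.det_fin_two]; exact (rho c).2
    have h3 : c ^ 2 = 1 := by
      apply rho_injective
      rw [map_pow, map_one, pow_two]
      apply Subtype.ext
      have e4 : (rho c).1 0 0 = (rho c).1 1 1 := by omega
      rw [e1, e4] at hd
      have h4 : (rho c).1 * (rho c).1 = 1 := by
        ext i j
        fin_cases i <;> fin_cases j <;>
          simp only [Matrix.mul_apply, Fin.sum_univ_two, Fin.zero_eta, Fin.mk_one, Fin.isValue,
            e1, e2, e4]
        · rw [Matrix.one_apply_eq]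
          linear_combination hd
        · simp
        · simp
        · rw [Matrix.one_apply_eq]
          linear_combination hd
      exact h4
    exact (pow_eq_one_iff_left two_ne_zero).1 h3
  have h3 := comm_trans _ _ _ hns h1 h2
  apply rho_injective
  rw [map_mul, map_mul]
  exact Subtype.ext h3

/-- In the free group on `ℤ`, if `c ≠ 1` commutes with `x c x⁻¹`, then `x` commutes with `c`. -/
theorem free_mal (x c : FreeGroup ℤ) (h : Commute c (x * c * x⁻¹)) : Commute x c := by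
  have h1 := congrArg rho h.eq
  simp only [map_mul, map_inv] at h1
  rcases conj_eq_or (rho x) (rho c) h1 with h2 | h2
  · rw [← map_inv, ← map_mul, ← map_mul] at h2
    have h3 := rho_injective h2
    exact mul_inv_eq_iff_eq_mul.1 h3
  · rw [← map_inv, ← map_inv, ← map_mul, ← map_mul] at h2
    have h3 := rho_injective h2
    by_cases hx : x = 1
    · subst hx; exact Commute.one_left c
    · have hx2 : x ^ 2 ≠ 1 := fun h => hx ((pow_eq_one_iff_left two_ne_zero).1 h)
      have h4 : Commute (x ^ 2) c := by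
        have h5 : x * (x * c * x⁻¹) * x⁻¹ = c := by
          rw [h3]
          have h6 : x * c⁻¹ * x⁻¹ = (x * c * x⁻¹)⁻¹ := by group
          rw [h6, h3, inv_inv]
        have h7 : x ^ 2 * c * (x ^ 2)⁻¹ = c := by
          have h8 : x ^ 2 * c * (x ^ 2)⁻¹ = x * (x * c * x⁻¹) * x⁻¹ := by
            rw [pow_two, _root_.mul_inv_rev]
            simp only [mul_assoc]
          rw [h8, h5]
        exact mul_inv_eq_iff_eq_mul.1 h7
      exact free_ct x c (x ^ 2) hx2 (Commute.refl x |>.pow_right 2) h4.symm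

end Pool.Agent.MP505b0b

namespace Pool.Agent.MP505b0b

open Matrix

/-- the real representation -/
noncomputable def rhoR : FreeGroup ℤ →* SpecialLinearGroup (Fin 2) ℝ :=
  (SpecialLinearGroup.map (Int.castRingHom ℝ)).comp rho

lemma rhoR_entry (g : FreeGroup ℤ) (i j : Fin 2) : (rhoR g).1 i j = ((rho g).1 i j : ℝ) := rfl

lemma rhoR_injective : Function.Injective rhoR := by
  intro a b h
  apply rho_injective
  apply Subtype.ext
  ext i j
  have h1 : (rhoR a).1 i j = (rhoR b).1 i j := by rw [h]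
  rw [rhoR_entry, rhoR_entry] at h1
  exact_mod_cast h1

/-- the action on vectors -/
noncomputable def act (g : FreeGroup ℤ) (v : Fin 2 → ℝ) : Fin 2 → ℝ := (rhoR g).1 *ᵥ v

lemma act_mul (g h : FreeGroup ℤ) (v : Fin 2 → ℝ) : act (g * h) v = act g (act h v) := by
  unfold act
  rw [map_mul, Matrix.mulVec_mulVec]
  rfl

lemma act_one (v : Fin 2 → ℝ) : act 1 v = v := by
  unfold act
  rw [map_one]
  exact Matrix.one_mulVec v

lemma act_smul (g : FreeGroup ℤ) (s : ℝ) (v : Fin 2 → ℝ) : act g (s • v) = s • act g v := by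
  unfold act
  rw [Matrix.mulVec_smul]

lemma act_inv_act (g : FreeGroup ℤ) (v : Fin 2 → ℝ) : act g⁻¹ (act g v) = v := by
  rw [← act_mul, inv_mul_cancel, act_one]

lemma act_zero (g : FreeGroup ℤ) : act g 0 = 0 := by
  unfold act
  rw [Matrix.mulVec_zero]

lemma act_ne_zero (g : FreeGroup ℤ) (v : Fin 2 → ℝ) (hv : v ≠ 0) : act g v ≠ 0 := by
  intro h
  apply hv
  rw [← act_inv_act g v, h, act_zero]

lemma act_inv_eig (g : FreeGroup ℤ) (v : Fin 2 → ℝ) (hv : v ≠ 0) (s : ℝ) (h : act g v = s • v) :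
    s ≠ 0 ∧ act g⁻¹ v = s⁻¹ • v := by
  have hs : s ≠ 0 := by
    intro hs
    rw [hs, zero_smul] at h
    exact act_ne_zero g v hv h
  refine ⟨hs, ?_⟩
  have h1 := act_inv_act g v
  rw [h, act_smul] at h1
  rw [eq_inv_smul_iff₀ hs]
  exact h1

lemma det_eq (g : FreeGroup ℤ) :
    (rhoR g).1 0 0 * (rhoR g).1 1 1 - (rhoR g).1 0 1 * (rhoR g).1 1 0 = 1 := by
  rw [← Matrix.det_fin_two]; exact (rhoR g).2

lemma act_apply0 (g : FreeGroup ℤ) (v : Fin 2 → ℝ) :
    act g v 0 = (rhoR g).1 0 0 * v 0 + (rhoR g).1 0 1 * v 1 := by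
  unfold act
  rw [Matrix.mulVec, dotProduct, Fin.sum_univ_two]

lemma act_apply1 (g : FreeGroup ℤ) (v : Fin 2 → ℝ) :
    act g v 1 = (rhoR g).1 1 0 * v 0 + (rhoR g).1 1 1 * v 1 := by
  unfold act
  rw [Matrix.mulVec, dotProduct, Fin.sum_univ_two]

lemma trace_of_fix (g : FreeGroup ℤ) (v : Fin 2 → ℝ) (hv : v ≠ 0) (h : act g v = v) :
    (rhoR g).1 0 0 + (rhoR g).1 1 1 = 2 := by
  have h0 := congrFun h 0
  have h1 := congrFun h 1
  rw [act_apply0] at h0
  rw [act_apply1] at h1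
  have hd := det_eq g
  by_cases hv0 : v 0 = 0
  · have hv1 : v 1 ≠ 0 := by
      intro hv1
      apply hv
      ext i
      fin_cases i
      · exact hv0
      · exact hv1
    apply mul_left_cancel₀ hv1
    rw [hv0] at h0 h1
    have e1 : (rhoR g).1 0 1 = 0 := by
      have : (rhoR g).1 0 1 * v 1 = 0 := by linear_combination h0
      exact (mul_eq_zero.1 this).resolve_right hv1
    have e2 : (rhoR g).1 1 1 = 1 := by
      apply mul_right_cancel₀ hv1
      linear_combination h1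
    rw [e1, e2] at hd
    rw [e2]
    linear_combination (v 1) * hd
  · apply mul_left_cancel₀ hv0
    linear_combination -((rhoR g).1 1 1 - 1) * h0 + (v 0) * hd + (rhoR g).1 0 1 * h1

lemma fix_commute (c d : FreeGroup ℤ) (v : Fin 2 → ℝ) (hv : v ≠ 0) (hc : act c v = v)
    (hd : act d v = v) : Commute c d := by
  have tc := trace_of_fix c v hv hc
  have td := trace_of_fix d v hv hd
  have c0 := congrFun hc 0
  have c1 := congrFun hc 1
  rw [act_apply0] at c0
  rw [act_apply1] at c1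
  have d0 := congrFun hd 0
  have d1 := congrFun hd 1
  rw [act_apply0] at d0
  rw [act_apply1] at d1
  apply rhoR_injective
  rw [map_mul, map_mul]
  apply Subtype.ext
  change (rhoR c).1 * (rhoR d).1 = (rhoR d).1 * (rhoR c).1
  rw [comm_iff]
  generalize (rhoR c).1 0 0 = a at *
  generalize (rhoR c).1 0 1 = b at *
  generalize (rhoR c).1 1 0 = e at *
  generalize (rhoR c).1 1 1 = f at *
  generalize (rhoR d).1 0 0 = a' at *
  generalize (rhoR d).1 0 1 = b' at *
  generalize (rhoR d).1 1 0 = e' at *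
  generalize (rhoR d).1 1 1 = f' at *
  obtain rfl : f = 2 - a := by linear_combination tc
  obtain rfl : f' = 2 - a' := by linear_combination td
  by_cases hv1 : v 1 = 0
  · have hv0 : v 0 ≠ 0 := by
      intro hv0
      apply hv
      ext i
      fin_cases i
      · exact hv0
      · exact hv1
    rw [hv1] at c0 c1 d0 d1
    have e1 : a = 1 := by apply mul_right_cancel₀ hv0; linear_combination c0
    have e2 : a' = 1 := by apply mul_right_cancel₀ hv0; linear_combination d0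
    have e3 : e = 0 := by
      have : e * v 0 = 0 := by linear_combination c1
      exact (mul_eq_zero.1 this).resolve_right hv0
    have e4 : e' = 0 := by
      have : e' * v 0 = 0 := by linear_combination d1
      exact (mul_eq_zero.1 this).resolve_right hv0
    subst e1 e2 e3 e4
    refine ⟨by ring, by ring, by ring⟩
  · refine ⟨?_, ?_, ?_⟩
    · apply mul_right_cancel₀ hv1
      linear_combination e' * c0 - e * d0 - (a - 1) * d1 + (a' - 1) * c1
    · apply mul_right_cancel₀ hv1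
      linear_combination 2 * (a' - 1) * c0 - 2 * (a - 1) * d0
    · apply mul_right_cancel₀ hv1
      linear_combination 2 * e' * c1 - 2 * e * d1

/-- If `v` is an eigenvector of `w` and `x v` is an eigenvector of `w`, then `x` commutes with
`w`. -/
theorem free_eig (x w : FreeGroup ℤ) (v : Fin 2 → ℝ) (hv : v ≠ 0) (α β : ℝ)
    (ha : act w v = α • v) (hb : act w (act x v) = β • act x v) : Commute x w := by
  set a := w with haw
  set b := x⁻¹ * w * x with hbw
  have hb' : act b v = β • v := by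
    rw [hbw, act_mul, act_mul, hb, act_smul, act_inv_act]
  obtain ⟨ha0, hai⟩ := act_inv_eig a v hv α ha
  obtain ⟨hb0, hbi⟩ := act_inv_eig b v hv β hb'
  set c := a * b * a⁻¹ * b⁻¹ with hc
  have hcv : act c v = v := by
    rw [hc, act_mul, act_mul, act_mul]
    simp only [hbi, act_smul, hai, hb', ha, smul_smul]
    rw [show β⁻¹ * α⁻¹ * β * α = 1 by field_simp, one_smul]
  have hac : Commute c (a * c * a⁻¹) := by
    apply fix_commute _ _ v hv hcv
    rw [act_mul, act_mul, hai, act_smul, hcv, act_smul, ha, smul_smul, inv_mul_cancel₀ ha0,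
      one_smul]
  have hbc : Commute c (b * c * b⁻¹) := by
    apply fix_commute _ _ v hv hcv
    rw [act_mul, act_mul, hbi, act_smul, hcv, act_smul, hb', smul_smul, inv_mul_cancel₀ hb0,
      one_smul]
  have hab : Commute a b := by
    by_cases hc1 : c = 1
    · have h1 : a * b * a⁻¹ = b := mul_inv_eq_one.1 (by rw [← hc]; exact hc1)
      exact mul_inv_eq_iff_eq_mul.1 h1
    · exact free_ct a b c hc1 (free_mal a c hac) (free_mal b c hbc)
  have h2 : Commute x⁻¹ w := by
    apply free_mal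
    rw [inv_inv]
    exact hab
  exact (Commute.inv_left_iff.1 h2)

end Pool.Agent.MP505b0b

namespace Pool.Agent.MP505b0b

open Matrix Filter Topology

/-- coefficients of the powers of a matrix of determinant one and trace `t` -/
def U (t : ℝ) : ℕ → ℝ
  | 0 => 0
  | 1 => 1
  | n + 2 => t * U t (n + 1) - U t n

lemma U_growth (t : ℝ) (ht : 2 ≤ |t|) (n : ℕ) : |U t n| + 1 ≤ |U t (n + 1)| := by
  induction n with
  | zero => simp [U]
  | succ n ih =>
    have h1 : U t (n + 1 + 1) = t * U t (n + 1) - U t n := rfl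
    rw [h1]
    have h2 : |t * U t (n + 1)| - |U t n| ≤ |t * U t (n + 1) - U t n| := abs_sub_abs_le_abs_sub _ _
    rw [abs_mul] at h2
    have h3 : 2 * |U t (n + 1)| ≤ |t| * |U t (n + 1)| :=
      mul_le_mul_of_nonneg_right ht (abs_nonneg _)
    linarith

lemma U_ge (t : ℝ) (ht : 2 ≤ |t|) (n : ℕ) : (n : ℝ) ≤ |U t n| := by
  induction n with
  | zero => simp [U]
  | succ n ih =>
    have := U_growth t ht n
    push_cast
    linarith

lemma U_rel (t a b : ℝ) (hab : a * b = 1) (hs : a + b = t) (n : ℕ) :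
    U t (n + 1) = a * U t n + b ^ n := by
  induction n with
  | zero => simp [U]
  | succ n ih =>
    have h1 : U t (n + 1 + 1) = t * U t (n + 1) - U t n := rfl
    rw [h1]
    have h2 : b * U t (n + 1) = U t n + b ^ (n + 1) := by
      rw [ih, pow_succ]
      linear_combination (U t n) * hab
    linear_combination h2 - (U t (n + 1)) * hs

/-- the eigenvalues -/
lemma exists_eigen (t : ℝ) (ht : 2 ≤ |t|) : ∃ a b : ℝ, a * b = 1 ∧ a + b = t ∧ |b| ≤ 1 := by
  have h0 : 0 ≤ t ^ 2 - 4 := by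
    have : 2 ^ 2 ≤ |t| ^ 2 := pow_le_pow_left₀ (by norm_num) ht 2
    rw [sq_abs] at this
    linarith
  obtain ⟨s, hs⟩ : ∃ s : ℝ, s ^ 2 = t ^ 2 - 4 := ⟨Real.sqrt (t ^ 2 - 4), Real.sq_sqrt h0⟩
  have key : ((t + s) / 2) * ((t - s) / 2) = 1 := by linear_combination (-1 / 4) * hs
  by_cases h : |(t - s) / 2| ≤ 1
  · exact ⟨(t + s) / 2, (t - s) / 2, key, by ring, h⟩
  · refine ⟨(t - s) / 2, (t + s) / 2, by linear_combination key, by ring, ?_⟩
    by_contra h2
    have h3 : |((t + s) / 2)| * |((t - s) / 2)| = 1 := by rw [← abs_mul, key, abs_one]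
    push Not at h h2
    have h4 : 1 < |((t + s) / 2)| * |((t - s) / 2)| := by
      calc (1 : ℝ) = 1 * 1 := by ring
        _ < _ := mul_lt_mul'' h2 h (by norm_num) (by norm_num)
    linarith

lemma pow_formula (A : Matrix (Fin 2) (Fin 2) ℝ) (t a b : ℝ) (hA : A * A = t • A - 1)
    (hab : a * b = 1) (hs : a + b = t) (n : ℕ) :
    A ^ n = U t n • (A - b • (1 : Matrix (Fin 2) (Fin 2) ℝ)) +
      b ^ n • (1 : Matrix (Fin 2) (Fin 2) ℝ) := by
  induction n with
  | zero => simp [U]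
  | succ n ih =>
    rw [pow_succ, ih, U_rel t a b hab hs n]
    have h1 : (A - b • (1 : Matrix (Fin 2) (Fin 2) ℝ)) * A =
        a • (A - b • (1 : Matrix (Fin 2) (Fin 2) ℝ)) := by
      rw [sub_mul, hA, smul_sub, smul_smul, hab, one_smul, smul_mul_assoc, one_mul, ← hs,
        add_smul]
      abel
    rw [add_mul, smul_mul_assoc, h1, smul_mul_assoc, one_mul, smul_smul, add_smul]
    have h2 : b ^ n • A = b ^ n • (A - b • (1 : Matrix (Fin 2) (Fin 2) ℝ)) +
        b ^ (n + 1) • (1 : Matrix (Fin 2) (Fin 2) ℝ) := by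
      rw [smul_sub, smul_smul, pow_succ]
      abel
    rw [h2, mul_comm (U t n) a]
    abel

lemma trace_ge (w : FreeGroup ℤ) (hw : w ≠ 1) : 2 ≤ |(rho w).1 0 0 + (rho w).1 1 1| := by
  by_contra hlt
  push Not at hlt
  set A := (rho w).1 with hA
  have hd : A 0 0 * A 1 1 - A 0 1 * A 1 0 = 1 := by
    rw [← Matrix.det_fin_two]; exact (rho w).2
  have hCH : A * A = (A 0 0 + A 1 1) • A - 1 := by
    ext i j
    fin_cases i <;> fin_cases j <;>
      simp only [Matrix.mul_apply, Fin.sum_univ_two, Fin.zero_eta, Fin.mk_one, Fin.isValue,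
        Matrix.sub_apply, Matrix.smul_apply, smul_eq_mul]
    · rw [Matrix.one_apply_eq]; linear_combination -hd
    · rw [Matrix.one_apply_ne (by decide)]; ring
    · rw [Matrix.one_apply_ne (by decide)]; ring
    · rw [Matrix.one_apply_eq]; linear_combination -hd
  have h12 : A ^ 12 = 1 := by
    have h1 : A 0 0 + A 1 1 = 0 ∨ A 0 0 + A 1 1 = 1 ∨ A 0 0 + A 1 1 = -1 := by
      rw [abs_lt] at hlt
      omega
    rcases h1 with h1 | h1 | h1
    · rw [h1, zero_smul, zero_sub] at hCH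
      have : A ^ 12 = (A * A) ^ 6 := by rw [← pow_two, ← pow_mul]
      rw [this, hCH]
      exact Even.neg_one_pow (by decide)
    · rw [h1, one_smul] at hCH
      have h3 : A * A * A = -1 := by
        rw [hCH, sub_mul, one_mul, hCH]; abel
      have : A ^ 12 = (A * A * A) ^ 4 := by rw [← pow_two, ← pow_succ, ← pow_mul]
      rw [this, h3]
      exact Even.neg_one_pow (by decide)
    · rw [h1, neg_smul, one_smul] at hCH
      have h3 : A * A * A = 1 := by
        rw [hCH, sub_mul, neg_mul, one_mul, hCH]; abel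
      have : A ^ 12 = (A * A * A) ^ 4 := by rw [← pow_two, ← pow_succ, ← pow_mul]
      rw [this, h3, one_pow]
  apply hw
  have h1 : w ^ 12 = 1 := by
    apply rho_injective
    rw [map_pow, map_one]
    apply Subtype.ext
    exact h12
  exact (pow_eq_one_iff_left (by norm_num)).1 h1

lemma rhoR_CH (w : FreeGroup ℤ) : (rhoR w).1 * (rhoR w).1 =
    ((rhoR w).1 0 0 + (rhoR w).1 1 1) • (rhoR w).1 - 1 := by
  have hd := det_eq w
  ext i j
  fin_cases i <;> fin_cases j <;>
    simp only [Matrix.mul_apply, Fin.sum_univ_two, Fin.zero_eta, Fin.mk_one, Fin.isValue,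
      Matrix.sub_apply, Matrix.smul_apply, smul_eq_mul]
  · rw [Matrix.one_apply_eq]; linear_combination -hd
  · rw [Matrix.one_apply_ne (by decide)]; ring
  · rw [Matrix.one_apply_ne (by decide)]; ring
  · rw [Matrix.one_apply_eq]; linear_combination -hd

lemma eig_inv (w : FreeGroup ℤ) (v : Fin 2 → ℝ) (h : ∃ a : ℝ, act w⁻¹ v = a • v) :
    ∃ a : ℝ, act w v = a • v := by
  by_cases hv : v = 0
  · exact ⟨0, by rw [hv, act_zero, smul_zero]⟩
  · obtain ⟨a, ha⟩ := h
    have h1 := (act_inv_eig w⁻¹ v hv a ha).2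
    rw [inv_inv] at h1
    exact ⟨_, h1⟩

/-- the basic limit, positive powers -/
lemma conv_pos (w : FreeGroup ℤ) (hw : w ≠ 1) (m : ℕ) (hm : m ≠ 0) :
    ∃ (s : ℕ → ℝ) (B : (Fin 2 → ℝ) → (Fin 2 → ℝ)),
      Tendsto (fun k => |s k|) atTop atTop ∧
      (∀ (p : ℕ → (Fin 2 → ℝ)) (v : Fin 2 → ℝ), Tendsto p atTop (𝓝 v) →
        Tendsto (fun k => (s k)⁻¹ • act (w ^ (k * m)) (p k)) atTop (𝓝 (B v))) ∧
      (∀ v, ∃ a : ℝ, act w (B v) = a • B v) ∧ (∀ v, B v = 0 → ∃ a : ℝ, act w v = a • v) ∧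
      (∃ v, B v ≠ 0) := by
  set A := (rhoR w).1 with hA
  set t := A 0 0 + A 1 1 with ht
  have ht2 : 2 ≤ |t| := by
    have h1 := trace_ge w hw
    have h2 : t = (((rho w).1 0 0 + (rho w).1 1 1 : ℤ) : ℝ) := by
      rw [ht, hA, rhoR_entry, rhoR_entry]
      push_cast
      ring
    rw [h2]
    exact_mod_cast h1
  have hCH : A * A = t • A - 1 := rhoR_CH w
  obtain ⟨a, b, hab, hs, hb⟩ := exists_eigen t ht2
  have hpow := pow_formula A t a b hCH hab hs
  have hact : ∀ (n : ℕ) (y : Fin 2 → ℝ),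
      act (w ^ n) y = U t n • (A *ᵥ y - b • y) + b ^ n • y := by
    intro n y
    unfold act
    have h1 : (rhoR (w ^ n)).1 = A ^ n := by rw [map_pow]; rfl
    rw [h1, hpow n, Matrix.add_mulVec, Matrix.smul_mulVec, Matrix.smul_mulVec, Matrix.one_mulVec,
      Matrix.sub_mulVec, Matrix.smul_mulVec, Matrix.one_mulVec]
  have hinf : Tendsto (fun k : ℕ => |U t (k * m)|) atTop atTop := by
    apply tendsto_atTop_mono (f := fun k : ℕ => (k : ℝ))
    · intro k
      refine le_trans ?_ (U_ge t ht2 (k * m))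
      have : k ≤ k * m := Nat.le_mul_of_pos_right k (Nat.pos_of_ne_zero hm)
      exact_mod_cast this
    · exact tendsto_natCast_atTop_atTop
  refine ⟨fun k => U t (k * m), fun v => A *ᵥ v - b • v, hinf, ?_, ?_, ?_, ?_⟩
  · intro p v hp
    have h1 : Tendsto (fun k => (A *ᵥ p k - b • p k) + ((U t (k * m))⁻¹ * b ^ (k * m)) • p k) atTop
        (𝓝 ((A *ᵥ v - b • v) + (0 : ℝ) • v)) := by
      have hc : Continuous (fun v : Fin 2 → ℝ => A *ᵥ v - b • v) :=
        (Continuous.matrix_mulVec continuous_const continuous_id).sub (continuous_const_smul b)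
      refine Tendsto.add ((hc.tendsto v).comp hp) (Tendsto.smul ?_ hp)
      have h2 : Tendsto (fun k : ℕ => (|U t (k * m)|)⁻¹) atTop (𝓝 0) := hinf.inv_tendsto_atTop
      apply squeeze_zero_norm (a := fun k : ℕ => (|U t (k * m)|)⁻¹) _ h2
      intro k
      rw [Real.norm_eq_abs, abs_mul, abs_inv, abs_pow]
      have h3 : |b| ^ (k * m) ≤ 1 := pow_le_one₀ (abs_nonneg _) hb
      calc (|U t (k * m)|)⁻¹ * |b| ^ (k * m) ≤ (|U t (k * m)|)⁻¹ * 1 :=
            mul_le_mul_of_nonneg_left h3 (inv_nonneg.2 (abs_nonneg _))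
        _ = _ := mul_one _
    rw [zero_smul, add_zero] at h1
    refine h1.congr' ?_
    have h4 : ∀ᶠ k : ℕ in atTop, 1 ≤ |U t (k * m)| := hinf.eventually_ge_atTop 1
    filter_upwards [h4] with k hk
    have h5 : U t (k * m) ≠ 0 := by
      intro h
      rw [h, abs_zero] at hk
      linarith
    rw [hact, smul_add, smul_smul, smul_smul, inv_mul_cancel₀ h5, one_smul]
  · intro v
    refine ⟨a, ?_⟩
    change A *ᵥ (A *ᵥ v - b • v) = a • (A *ᵥ v - b • v)
    rw [Matrix.mulVec_sub, Matrix.mulVec_mulVec, hCH, Matrix.mulVec_smul, Matrix.sub_mulVec,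
      Matrix.smul_mulVec, Matrix.one_mulVec, smul_sub, smul_smul, hab, one_smul, ← hs, add_smul]
    abel
  · intro v hv
    refine ⟨b, ?_⟩
    exact sub_eq_zero.1 hv
  · by_contra hall
    push Not at hall
    have e0 := hall ![1, 0]
    have e1 := hall ![0, 1]
    have a00 := congrFun e0 0
    have a10 := congrFun e0 1
    have a01 := congrFun e1 0
    have a11 := congrFun e1 1
    simp at a00 a10 a01 a11
    apply hw
    have h2 : w ^ 2 = 1 := by
      apply rhoR_injective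
      rw [map_pow, map_one, pow_two]
      apply Subtype.ext
      change A * A = 1
      have hd := det_eq w
      rw [← hA] at hd
      rw [a01, a10, sub_eq_zero.1 a00, sub_eq_zero.1 a11] at hd
      ext i j
      fin_cases i <;> fin_cases j <;>
        simp only [Matrix.mul_apply, Fin.sum_univ_two, Fin.zero_eta, Fin.mk_one, Fin.isValue,
          a01, a10, sub_eq_zero.1 a00, sub_eq_zero.1 a11]
      · rw [Matrix.one_apply_eq]; linear_combination hd
      · simp
      · simp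
      · rw [Matrix.one_apply_eq]; linear_combination hd
    exact (pow_eq_one_iff_left two_ne_zero).1 h2

/-- the basic limit -/
lemma conv_step (w : FreeGroup ℤ) (hw : w ≠ 1) (e : ℤ) (he : e ≠ 0) :
    ∃ (s : ℕ → ℝ) (B : (Fin 2 → ℝ) → (Fin 2 → ℝ)),
      Tendsto (fun k => |s k|) atTop atTop ∧
      (∀ (p : ℕ → (Fin 2 → ℝ)) (v : Fin 2 → ℝ), Tendsto p atTop (𝓝 v) →
        Tendsto (fun k : ℕ => (s k)⁻¹ • act (w ^ ((k : ℤ) * e)) (p k)) atTop (𝓝 (B v))) ∧
      (∀ v, ∃ a : ℝ, act w (B v) = a • B v) ∧ (∀ v, B v = 0 → ∃ a : ℝ, act w v = a • v) ∧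
      (∃ v, B v ≠ 0) := by
  have hm : e.natAbs ≠ 0 := Int.natAbs_ne_zero.2 he
  rcases Int.natAbs_eq e with h | h
  · obtain ⟨s, B, h1, h2, h3, h4, h5⟩ := conv_pos w hw e.natAbs hm
    refine ⟨s, B, h1, ?_, h3, h4, h5⟩
    intro p v hp
    have h6 : ∀ k : ℕ, w ^ ((k : ℤ) * e) = w ^ (k * e.natAbs) := by
      intro k
      rw [← zpow_natCast, Nat.cast_mul, ← h]
    simp only [h6]
    exact h2 p v hp
  · obtain ⟨s, B, h1, h2, h3, h4, h5⟩ := conv_pos w⁻¹ (inv_ne_one.2 hw) e.natAbs hm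
    refine ⟨s, B, h1, ?_, fun v => eig_inv w _ (h3 v), fun v hv => eig_inv w _ (h4 v hv), h5⟩
    intro p v hp
    have h6 : ∀ k : ℕ, w ^ ((k : ℤ) * e) = w⁻¹ ^ (k * e.natAbs) := by
      intro k
      rw [← zpow_natCast, Nat.cast_mul, _root_.inv_zpow', ← mul_neg, ← h]
    simp only [h6]
    exact h2 p v hp

lemma continuous_act (g : FreeGroup ℤ) : Continuous (act g) :=
  Continuous.matrix_mulVec continuous_const continuous_id

/-- The free group on `ℤ` has the big powers property. -/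
theorem bigPowers_freeInt : BigPowers (FreeGroup ℤ) := by
  intro w hw c L e' he' hL
  obtain ⟨s0, B0, a1, a2, a3, a4, z, a5⟩ := conv_step w hw e' he'
  have key : ∀ L : List (ℤ × FreeGroup ℤ), (∀ p ∈ L, p.1 ≠ 0 ∧ ¬ Commute p.2 w) →
      ∃ (s : ℕ → ℝ) (v : Fin 2 → ℝ), Tendsto (fun k => |s k|) atTop atTop ∧ v ≠ 0 ∧
        (∃ a : ℝ, act w v = a • v) ∧
        Tendsto (fun k : ℕ => (s k)⁻¹ • act ((L.map fun p => w ^ ((k : ℤ) * p.1) * p.2).prod *
          w ^ ((k : ℤ) * e')) z) atTop (𝓝 v) := by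
    intro L
    induction L with
    | nil =>
      intro _
      refine ⟨s0, B0 z, a1, a5, a3 z, ?_⟩
      simp only [List.map_nil, List.prod_nil, one_mul]
      exact a2 (fun _ => z) z tendsto_const_nhds
    | cons q L ih =>
      intro hL
      obtain ⟨s, v, b1, b2, ⟨α, b3⟩, b4⟩ := ih (fun p hp => hL p (List.mem_cons_of_mem _ hp))
      obtain ⟨hq1, hq2⟩ := hL q List.mem_cons_self
      obtain ⟨s2, B2, c1, c2, c3, c4, _⟩ := conv_step w hw q.1 hq1
      refine ⟨fun k => s2 k * s k, B2 (act q.2 v), ?_, ?_, c3 _, ?_⟩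
      · simp only [abs_mul]
        exact c1.atTop_mul_atTop₀ b1
      · intro h
        obtain ⟨β, hβ⟩ := c4 _ h
        exact hq2 (free_eig q.2 w v b2 α β b3 hβ)
      · have h1 := ((continuous_act q.2).tendsto v).comp b4
        refine (c2 _ _ h1).congr ?_
        intro k
        simp only [Function.comp_apply, List.map_cons, List.prod_cons, act_mul, act_smul,
          smul_smul, mul_inv]
  obtain ⟨s, v, b1, b2, _, b4⟩ := key L hL
  have h1 := ((continuous_act c).tendsto v).comp b4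
  have h2 : Tendsto (fun k : ℕ => (s k)⁻¹ • z) atTop (𝓝 ((0 : ℝ) • z)) := by
    apply Tendsto.smul_const
    have h3 : Tendsto (fun k : ℕ => (|s k|)⁻¹) atTop (𝓝 0) := b1.inv_tendsto_atTop
    apply squeeze_zero_norm (a := fun k : ℕ => (|s k|)⁻¹) _ h3
    intro k
    rw [Real.norm_eq_abs, abs_inv]
  have h3 := h1.sub h2
  rw [zero_smul, sub_zero] at h3
  have h4 := h3.eventually_ne (act_ne_zero c v b2)
  obtain ⟨K, hK⟩ := Filter.eventually_atTop.1 h4
  refine ⟨K, fun k hk h => hK k hk ?_⟩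
  simp only [Function.comp_apply]
  rw [act_smul, ← act_mul, ← mul_assoc, h, act_one, sub_self]

/-- Free groups of finite rank have the big powers property. -/
theorem bigPowers_free (n : ℕ) : BigPowers (FreeGroup (Fin n)) := by
  refine bigPowers_freeInt.of_injective (FreeGroup.map (fun i : Fin n => ((i : ℕ) : ℤ))) ?_
  apply FreeGroup.map_injective
  intro a b h
  apply Fin.ext
  have h' : ((a : ℕ) : ℤ) = ((b : ℕ) : ℤ) := h
  exact_mod_cast h'

end Pool.Agent.MP505b0b

namespace Pool.Agent.MP505b0b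

open Matrix

/-- first generator -/
def sA : SpecialLinearGroup (Fin 2) ℤ := ⟨!![1, 2; 0, 1], by rw [Matrix.det_fin_two_of]; ring⟩

/-- second generator -/
def sB : SpecialLinearGroup (Fin 2) ℤ := ⟨!![1, 0; 2, 1], by rw [Matrix.det_fin_two_of]; ring⟩

/-- the generators -/
def sgen (i : Fin 2) : SpecialLinearGroup (Fin 2) ℤ := if i = 0 then sA else sB

lemma sA_mul (g : SpecialLinearGroup (Fin 2) ℤ) :
    (sA * g).1 0 0 = g.1 0 0 + 2 * g.1 1 0 ∧ (sA * g).1 1 0 = g.1 1 0 ∧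
    (sA * g).1 0 1 = g.1 0 1 + 2 * g.1 1 1 ∧ (sA * g).1 1 1 = g.1 1 1 := by
  have h : (sA * g).1 = sA.1 * g.1 := rfl
  rw [h]
  simp [Matrix.mul_apply, Fin.sum_univ_two, sA]

lemma sB_mul (g : SpecialLinearGroup (Fin 2) ℤ) :
    (sB * g).1 0 0 = g.1 0 0 ∧ (sB * g).1 1 0 = 2 * g.1 0 0 + g.1 1 0 ∧
    (sB * g).1 0 1 = g.1 0 1 ∧ (sB * g).1 1 1 = 2 * g.1 0 1 + g.1 1 1 := by
  have h : (sB * g).1 = sB.1 * g.1 := rfl
  rw [h]
  simp [Matrix.mul_apply, Fin.sum_univ_two, sB]

lemma sl_det (g : SpecialLinearGroup (Fin 2) ℤ) :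
    g.1 0 0 * g.1 1 1 - g.1 0 1 * g.1 1 0 = 1 := by
  rw [← Matrix.det_fin_two]; exact g.2

/-- The Sanov subgroup. -/
def sanov : Subgroup (SpecialLinearGroup (Fin 2) ℤ) where
  carrier := {g | (4 : ℤ) ∣ g.1 0 0 - 1 ∧ (4 : ℤ) ∣ g.1 1 1 - 1 ∧ (2 : ℤ) ∣ g.1 0 1 ∧
    (2 : ℤ) ∣ g.1 1 0}
  one_mem' := by
    refine ⟨?_, ?_, ?_, ?_⟩
    · change (4 : ℤ) ∣ (1 : Matrix (Fin 2) (Fin 2) ℤ) 0 0 - 1
      simp
    · change (4 : ℤ) ∣ (1 : Matrix (Fin 2) (Fin 2) ℤ) 1 1 - 1
      simp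
    · change (2 : ℤ) ∣ (1 : Matrix (Fin 2) (Fin 2) ℤ) 0 1
      simp
    · change (2 : ℤ) ∣ (1 : Matrix (Fin 2) (Fin 2) ℤ) 1 0
      simp
  mul_mem' := by
    rintro g h ⟨⟨a, ha⟩, ⟨d, hd⟩, ⟨b, hb⟩, ⟨c, hc⟩⟩ ⟨⟨a', ha'⟩, ⟨d', hd'⟩, ⟨b', hb'⟩, ⟨c', hc'⟩⟩
    have e : (g * h).1 = g.1 * h.1 := rfl
    have ha2 : g.1 0 0 = 4 * a + 1 := by linear_combination ha
    have hd2 : g.1 1 1 = 4 * d + 1 := by linear_combination hd
    have ha3 : h.1 0 0 = 4 * a' + 1 := by linear_combination ha'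
    have hd3 : h.1 1 1 = 4 * d' + 1 := by linear_combination hd'
    refine ⟨?_, ?_, ?_, ?_⟩
    · rw [e, Matrix.mul_apply, Fin.sum_univ_two, ha2, hb, ha3, hc']
      exact ⟨4 * a * a' + a + a' + b * c', by ring⟩
    · rw [e, Matrix.mul_apply, Fin.sum_univ_two, hd2, hc, hd3, hb']
      exact ⟨c * b' + 4 * d * d' + d + d', by ring⟩
    · rw [e, Matrix.mul_apply, Fin.sum_univ_two, hb, hb']
      exact ⟨g.1 0 0 * b' + b * h.1 1 1, by ring⟩
    · rw [e, Matrix.mul_apply, Fin.sum_univ_two, hc, hc']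
      exact ⟨c * h.1 0 0 + g.1 1 1 * c', by ring⟩
  inv_mem' := by
    rintro g ⟨⟨a, ha⟩, ⟨d, hd⟩, ⟨b, hb⟩, ⟨c, hc⟩⟩
    have e : (g⁻¹).1 = g.1.adjugate := rfl
    refine ⟨?_, ?_, ?_, ?_⟩
    · rw [e, Matrix.adjugate_fin_two]
      exact ⟨d, hd⟩
    · rw [e, Matrix.adjugate_fin_two]
      exact ⟨a, ha⟩
    · rw [e, Matrix.adjugate_fin_two]
      exact ⟨-b, by simp [hb]⟩
    · rw [e, Matrix.adjugate_fin_two]
      exact ⟨-c, by simp [hc]⟩

lemma sA_mem : sA ∈ sanov := by
  refine ⟨?_, ?_, ?_, ?_⟩ <;> simp [sA]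

lemma sB_mem : sB ∈ sanov := by
  refine ⟨?_, ?_, ?_, ?_⟩ <;> simp [sB]

/-- the homomorphism -/
def sig : FreeGroup (Fin 2) →* SpecialLinearGroup (Fin 2) ℤ := FreeGroup.lift sgen

lemma sig_zero : sig (FreeGroup.of 0) = sA := by simp [sig, sgen]

lemma sig_one : sig (FreeGroup.of 1) = sB := by simp [sig, sgen]

lemma sig_mem (g : FreeGroup (Fin 2)) : sig g ∈ sanov := by
  have h : sig.range ≤ sanov := by
    apply FreeGroup.range_lift_le
    rintro _ ⟨i, rfl⟩
    fin_cases i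
    · exact sA_mem
    · exact sB_mem
  exact h ⟨g, rfl⟩

lemma sanov_le (n : ℕ) : ∀ g ∈ sanov, (g.1 0 0).natAbs + (g.1 1 0).natAbs ≤ n →
    g ∈ sig.range := by
  have hA : sA ∈ sig.range := ⟨_, sig_zero⟩
  have hB : sB ∈ sig.range := ⟨_, sig_one⟩
  induction n with
  | zero =>
    rintro g ⟨h1, _, _, _⟩ h
    omega
  | succ n ih =>
    intro g hg h
    obtain ⟨h1, h2, h3, h4⟩ := hg
    have hg : g ∈ sanov := ⟨h1, h2, h3, h4⟩
    by_cases hc : g.1 1 0 = 0
    · -- upper triangular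
      have hd := sl_det g
      rw [hc, mul_zero, sub_zero] at hd
      have ha : g.1 0 0 = 1 := by
        rcases Int.eq_one_or_neg_one_of_mul_eq_one hd with h5 | h5
        · exact h5
        · omega
      rw [ha, one_mul] at hd
      obtain ⟨b, hb⟩ := h3
      have hpow : ∀ m : ℕ, ((sA ^ m).1 0 0 = 1 ∧ (sA ^ m).1 1 0 = 0 ∧
          (sA ^ m).1 0 1 = 2 * m ∧ (sA ^ m).1 1 1 = 1) := by
        intro m
        induction m with
        | zero =>
          rw [pow_zero]
          refine ⟨?_, ?_, ?_, ?_⟩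
          · change (1 : Matrix (Fin 2) (Fin 2) ℤ) 0 0 = 1
            simp
          · change (1 : Matrix (Fin 2) (Fin 2) ℤ) 1 0 = 0
            simp
          · change (1 : Matrix (Fin 2) (Fin 2) ℤ) 0 1 = 2 * ((0 : ℕ) : ℤ)
            simp
          · change (1 : Matrix (Fin 2) (Fin 2) ℤ) 1 1 = 1
            simp
        | succ m ihm =>
          obtain ⟨k1, k2, k3, k4⟩ := ihm
          obtain ⟨l1, l2, l3, l4⟩ := sA_mul (sA ^ m)
          rw [pow_succ']
          rw [l1, l2, l3, l4, k1, k2, k3, k4]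
          refine ⟨by ring, rfl, by push_cast; ring, rfl⟩
      rcases le_total 0 b with hb0 | hb0
      · have h6 := hpow b.natAbs
        have h7 : g = sA ^ b.natAbs := by
          apply Subtype.ext
          ext i j
          fin_cases i <;> fin_cases j
          · exact ha.trans h6.1.symm
          · change g.1 0 1 = (sA ^ b.natAbs).1 0 1
            rw [h6.2.2.1, hb]; omega
          · exact hc.trans h6.2.1.symm
          · exact hd.trans h6.2.2.2.symm
        rw [h7]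
        exact sig.range.pow_mem hA _
      · have h6 := hpow b.natAbs
        have h7 : g * sA ^ b.natAbs = 1 := by
          apply Subtype.ext
          have e : (g * sA ^ b.natAbs).1 = g.1 * (sA ^ b.natAbs).1 := rfl
          rw [e]
          obtain ⟨k1, k2, k3, k4⟩ := h6
          ext i j
          fin_cases i <;> fin_cases j <;>
            simp only [Matrix.mul_apply, Fin.sum_univ_two, Fin.zero_eta, Fin.mk_one, Fin.isValue,
              ha, hc, hb, hd, k1, k2, k3, k4]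
          · simp
          · change 1 * (2 * (b.natAbs : ℤ)) + 2 * b * 1 = (1 : Matrix (Fin 2) (Fin 2) ℤ) 0 1
            rw [Matrix.one_apply_ne (by decide)]; omega
          · simp
          · simp
        have h8 : g = (sA ^ b.natAbs)⁻¹ := eq_inv_of_mul_eq_one_left h7
        rw [h8]
        exact sig.range.inv_mem (sig.range.pow_mem hA _)
    · -- descent
      have ha0 : g.1 0 0 ≠ 0 := by omega
      rcases lt_trichotomy (g.1 0 0).natAbs (g.1 1 0).natAbs with hlt | heq | hgt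
      · -- reduce the lower entry
        by_cases hs : (0 < g.1 0 0 ∧ 0 < g.1 1 0) ∨ (g.1 0 0 < 0 ∧ g.1 1 0 < 0)
        · have h5 : sB⁻¹ * g ∈ sig.range := by
            obtain ⟨l1, l2, l3, l4⟩ := sB_mul (sB⁻¹ * g)
            rw [mul_inv_cancel_left] at l1 l2
            apply ih _ (sanov.mul_mem (sanov.inv_mem sB_mem) hg)
            omega
          have h6 : g = sB * (sB⁻¹ * g) := by rw [mul_inv_cancel_left]
          rw [h6]
          exact sig.range.mul_mem hB h5
        · have h5 : sB * g ∈ sig.range := by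
            obtain ⟨l1, l2, l3, l4⟩ := sB_mul g
            apply ih _ (sanov.mul_mem sB_mem hg)
            omega
          have h6 : g = sB⁻¹ * (sB * g) := by rw [inv_mul_cancel_left]
          rw [h6]
          exact sig.range.mul_mem (sig.range.inv_mem hB) h5
      · omega
      · by_cases hs : (0 < g.1 0 0 ∧ 0 < g.1 1 0) ∨ (g.1 0 0 < 0 ∧ g.1 1 0 < 0)
        · have h5 : sA⁻¹ * g ∈ sig.range := by
            obtain ⟨l1, l2, l3, l4⟩ := sA_mul (sA⁻¹ * g)
            rw [mul_inv_cancel_left] at l1 l2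
            apply ih _ (sanov.mul_mem (sanov.inv_mem sA_mem) hg)
            omega
          have h6 : g = sA * (sA⁻¹ * g) := by rw [mul_inv_cancel_left]
          rw [h6]
          exact sig.range.mul_mem hA h5
        · have h5 : sA * g ∈ sig.range := by
            obtain ⟨l1, l2, l3, l4⟩ := sA_mul g
            apply ih _ (sanov.mul_mem sA_mem hg)
            omega
          have h6 : g = sA⁻¹ * (sA * g) := by rw [inv_mul_cancel_left]
          rw [h6]
          exact sig.range.mul_mem (sig.range.inv_mem hA) h5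

section ping

/-- ping-pong sets -/
def pX (i : Fin 2) : Set (SpecialLinearGroup (Fin 2) ℤ) :=
  {g | if i = 0 then (0 < g.1 1 0 ∧ g.1 1 0 ≤ g.1 0 0) ∨ (g.1 1 0 < 0 ∧ g.1 0 0 ≤ g.1 1 0) ∨
      g.1 1 0 = 0
    else (0 < g.1 1 0 ∧ 0 ≤ g.1 0 0 ∧ g.1 0 0 < g.1 1 0) ∨
      (g.1 1 0 < 0 ∧ g.1 1 0 < g.1 0 0 ∧ g.1 0 0 ≤ 0)}

/-- ping-pong sets -/
def pY (i : Fin 2) : Set (SpecialLinearGroup (Fin 2) ℤ) :=
  {g | if i = 0 then (0 < g.1 1 0 ∧ g.1 0 0 < - g.1 1 0) ∨ (g.1 1 0 < 0 ∧ - g.1 1 0 < g.1 0 0)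
    else (0 < g.1 1 0 ∧ - g.1 1 0 ≤ g.1 0 0 ∧ g.1 0 0 < 0) ∨
      (g.1 1 0 < 0 ∧ 0 < g.1 0 0 ∧ g.1 0 0 ≤ - g.1 1 0)}

lemma sl_col_ne (g : SpecialLinearGroup (Fin 2) ℤ) : ¬ (g.1 0 0 = 0 ∧ g.1 1 0 = 0) := by
  rintro ⟨h1, h2⟩
  have h := sl_det g
  rw [h1, h2] at h
  simp at h

lemma pX_step (i : Fin 2) (g : SpecialLinearGroup (Fin 2) ℤ) (hg : g ∉ pY i) :
    sgen i * g ∈ pX i := by
  have h0 := sl_col_ne g
  fin_cases i
  · obtain ⟨l1, l2, _, _⟩ := sA_mul g
    change ¬ ((0 < g.1 1 0 ∧ g.1 0 0 < - g.1 1 0) ∨ (g.1 1 0 < 0 ∧ - g.1 1 0 < g.1 0 0)) at hg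
    change (0 < (sA * g).1 1 0 ∧ (sA * g).1 1 0 ≤ (sA * g).1 0 0) ∨
      ((sA * g).1 1 0 < 0 ∧ (sA * g).1 0 0 ≤ (sA * g).1 1 0) ∨ (sA * g).1 1 0 = 0
    omega
  · obtain ⟨l1, l2, _, _⟩ := sB_mul g
    change ¬ ((0 < g.1 1 0 ∧ - g.1 1 0 ≤ g.1 0 0 ∧ g.1 0 0 < 0) ∨
      (g.1 1 0 < 0 ∧ 0 < g.1 0 0 ∧ g.1 0 0 ≤ - g.1 1 0)) at hg
    change (0 < (sB * g).1 1 0 ∧ 0 ≤ (sB * g).1 0 0 ∧ (sB * g).1 0 0 < (sB * g).1 1 0) ∨
      ((sB * g).1 1 0 < 0 ∧ (sB * g).1 1 0 < (sB * g).1 0 0 ∧ (sB * g).1 0 0 ≤ 0)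
    omega

lemma pY_step (i : Fin 2) (g : SpecialLinearGroup (Fin 2) ℤ) (hg : g ∉ pX i) :
    (sgen i)⁻¹ * g ∈ pY i := by
  obtain ⟨h, rfl⟩ : ∃ h, g = sgen i * h := ⟨(sgen i)⁻¹ * g, by rw [mul_inv_cancel_left]⟩
  rw [inv_mul_cancel_left]
  by_contra hh
  exact hg (pX_step i h hh)

theorem sig_injective : Function.Injective sig := by
  refine FreeGroup.injective_lift_of_ping_pong (α := SpecialLinearGroup (Fin 2) ℤ) sgen pX pY
    ?_ ?_ ?_ ?_ ?_ ?_
  · intro i
    fin_cases i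
    · refine ⟨⟨!![1, 0; 0, 1], by rw [Matrix.det_fin_two_of]; ring⟩, ?_⟩
      simp [pX]
    · refine ⟨⟨!![0, -1; 1, 0], by rw [Matrix.det_fin_two_of]; ring⟩, ?_⟩
      simp [pX]
  · intro i j hij
    rw [Function.onFun, Set.disjoint_left]
    intro g h1 h2
    fin_cases i <;> fin_cases j <;> simp [pX] at hij h1 h2 <;> omega
  · intro i j hij
    rw [Function.onFun, Set.disjoint_left]
    intro g h1 h2
    fin_cases i <;> fin_cases j <;> simp [pY] at hij h1 h2 <;> omega
  · intro i j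
    rw [Set.disjoint_left]
    intro g h1 h2
    fin_cases i <;> fin_cases j <;> simp [pX, pY] at h1 h2 <;> omega
  · rintro i _ ⟨g, hg, rfl⟩
    exact pX_step i g hg
  · rintro i _ ⟨g, hg, rfl⟩
    exact pY_step i g hg

end ping

/-- The free group of rank two is isomorphic to the Sanov subgroup. -/
noncomputable def sanovEquiv : FreeGroup (Fin 2) ≃* sanov :=
  MulEquiv.ofBijective (sig.codRestrict sanov sig_mem) ⟨by
    intro a b h
    exact sig_injective (congrArg Subtype.val h), by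
    rintro ⟨g, hg⟩
    obtain ⟨x, hx⟩ := sanov_le _ g hg le_rfl
    exact ⟨x, Subtype.ext hx⟩⟩

section family

/-- the image under conjugation by `diag(2, 1)` -/
def cmat (g : SpecialLinearGroup (Fin 2) ℤ) : Matrix (Fin 2) (Fin 2) ℤ :=
  !![g.1 0 0, 2 * g.1 0 1; g.1 1 0 / 2, g.1 1 1]

/-- the image under conjugation by `diag(1, 2)` -/
def cmat' (g : SpecialLinearGroup (Fin 2) ℤ) : Matrix (Fin 2) (Fin 2) ℤ :=
  !![g.1 0 0, g.1 0 1 / 2; 2 * g.1 1 0, g.1 1 1]

/-- elements of the Sanov subgroup whose lower entry is divisible by four -/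
def sD : Subgroup sanov where
  carrier := {g | (4 : ℤ) ∣ g.1.1 1 0}
  one_mem' := by
    change (4 : ℤ) ∣ (1 : Matrix (Fin 2) (Fin 2) ℤ) 1 0
    simp
  mul_mem' := by
    rintro g h hg hh
    have e : (g * h).1.1 = g.1.1 * h.1.1 := rfl
    change (4 : ℤ) ∣ (g * h).1.1 1 0
    rw [e, Matrix.mul_apply, Fin.sum_univ_two]
    exact dvd_add (Dvd.dvd.mul_right hg _) (Dvd.dvd.mul_left hh _)
  inv_mem' := by
    rintro g hg
    have e : (g⁻¹).1.1 = g.1.1.adjugate := rfl
    change (4 : ℤ) ∣ (g⁻¹).1.1 1 0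
    rw [e, Matrix.adjugate_fin_two]
    exact (dvd_neg (α := ℤ)).2 hg

/-- elements of the Sanov subgroup whose upper entry is divisible by four -/
def sD' : Subgroup sanov where
  carrier := {g | (4 : ℤ) ∣ g.1.1 0 1}
  one_mem' := by
    change (4 : ℤ) ∣ (1 : Matrix (Fin 2) (Fin 2) ℤ) 0 1
    simp
  mul_mem' := by
    rintro g h hg hh
    have e : (g * h).1.1 = g.1.1 * h.1.1 := rfl
    change (4 : ℤ) ∣ (g * h).1.1 0 1
    rw [e, Matrix.mul_apply, Fin.sum_univ_two]
    exact dvd_add (Dvd.dvd.mul_left hh _) (Dvd.dvd.mul_right hg _)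
  inv_mem' := by
    rintro g hg
    have e : (g⁻¹).1.1 = g.1.1.adjugate := rfl
    change (4 : ℤ) ∣ (g⁻¹).1.1 0 1
    rw [e, Matrix.adjugate_fin_two]
    exact (dvd_neg (α := ℤ)).2 hg

/-- reduction modulo four -/
def red4 : sanov →* SpecialLinearGroup (Fin 2) (ZMod 4) :=
  (SpecialLinearGroup.map (Int.castRingHom (ZMod 4))).comp sanov.subtype

lemma red4_ker (g : sanov) (hg : g ∈ red4.ker) : (4 : ℤ) ∣ g.1.1 1 0 ∧ (4 : ℤ) ∣ g.1.1 0 1 := by
  rw [MonoidHom.mem_ker] at hg
  have h1 : (red4 g).1 = 1 := congrArg Subtype.val hg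
  have h10 : ((g.1.1 1 0 : ℤ) : ZMod 4) = 0 := by
    have := congrFun (congrFun h1 1) 0
    rw [Matrix.one_apply_ne (by decide)] at this
    exact this
  have h01 : ((g.1.1 0 1 : ℤ) : ZMod 4) = 0 := by
    have := congrFun (congrFun h1 0) 1
    rw [Matrix.one_apply_ne (by decide)] at this
    exact this
  exact ⟨(ZMod.intCast_zmod_eq_zero_iff_dvd _ 4).1 h10, (ZMod.intCast_zmod_eq_zero_iff_dvd _ 4).1 h01⟩

lemma sD_fi : sD.FiniteIndex := by
  have h : red4.ker ≤ sD := fun g hg => (red4_ker g hg).1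
  have : red4.ker.FiniteIndex := inferInstance
  exact Subgroup.finiteIndex_of_le h

lemma sD'_fi : sD'.FiniteIndex := by
  have h : red4.ker ≤ sD' := fun g hg => (red4_ker g hg).2
  have : red4.ker.FiniteIndex := inferInstance
  exact Subgroup.finiteIndex_of_le h

/-- conjugation by `diag(2, 1)` on `sD` -/
def sf (g : sanov) (hg : (4 : ℤ) ∣ g.1.1 1 0) : sanov :=
  ⟨⟨cmat g.1, by
    have hd := sl_det g.1
    obtain ⟨c, hc⟩ := hg
    have h2 : g.1.1 1 0 / 2 = 2 * c := by omega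
    unfold cmat
    rw [Matrix.det_fin_two_of, h2]
    rw [hc] at hd
    linear_combination hd⟩, by
    obtain ⟨h1, h2, h3, h4⟩ := g.2
    refine ⟨h1, h2, ⟨g.1.1 0 1, rfl⟩, ?_⟩
    change (2 : ℤ) ∣ g.1.1 1 0 / 2
    omega⟩

/-- conjugation by `diag(1, 2)` on `sD'` -/
def sf' (g : sanov) (hg : (4 : ℤ) ∣ g.1.1 0 1) : sanov :=
  ⟨⟨cmat' g.1, by
    have hd := sl_det g.1
    obtain ⟨c, hc⟩ := hg
    have h2 : g.1.1 0 1 / 2 = 2 * c := by omega
    unfold cmat'
    rw [Matrix.det_fin_two_of, h2]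
    rw [hc] at hd
    linear_combination hd⟩, by
    obtain ⟨h1, h2, h3, h4⟩ := g.2
    refine ⟨h1, h2, ?_, ⟨g.1.1 1 0, rfl⟩⟩
    change (2 : ℤ) ∣ g.1.1 0 1 / 2
    omega⟩

lemma sf_mul (g h : sanov) (hg : (4 : ℤ) ∣ g.1.1 1 0) (hh : (4 : ℤ) ∣ h.1.1 1 0)
    (hgh : (4 : ℤ) ∣ (g * h).1.1 1 0) : sf (g * h) hgh = sf g hg * sf h hh := by
  apply Subtype.ext
  apply Subtype.ext
  change cmat (g.1 * h.1) = cmat g.1 * cmat h.1
  obtain ⟨c, hc⟩ := hg
  obtain ⟨c', hc'⟩ := hh
  have h2 : g.1.1 1 0 / 2 = 2 * c := by omega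
  have h3 : h.1.1 1 0 / 2 = 2 * c' := by omega
  have e : (g.1 * h.1).1 = g.1.1 * h.1.1 := rfl
  have h4 : (g.1 * h.1).1 1 0 / 2 = 2 * c * h.1.1 0 0 + g.1.1 1 1 * (2 * c') := by
    rw [e, Matrix.mul_apply, Fin.sum_univ_two, hc, hc']
    have : 4 * c * h.1.1 0 0 + g.1.1 1 1 * (4 * c') =
      2 * (2 * c * h.1.1 0 0 + g.1.1 1 1 * (2 * c')) := by ring
    rw [this]
    exact Int.mul_ediv_cancel_left _ two_ne_zero
  unfold cmat
  rw [h4, h2, h3, e]
  ext i j
  fin_cases i <;> fin_cases j <;> simp [Matrix.mul_apply, Fin.sum_univ_two, hc, hc'] <;> ring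

lemma sf'_mul (g h : sanov) (hg : (4 : ℤ) ∣ g.1.1 0 1) (hh : (4 : ℤ) ∣ h.1.1 0 1)
    (hgh : (4 : ℤ) ∣ (g * h).1.1 0 1) : sf' (g * h) hgh = sf' g hg * sf' h hh := by
  apply Subtype.ext
  apply Subtype.ext
  change cmat' (g.1 * h.1) = cmat' g.1 * cmat' h.1
  obtain ⟨c, hc⟩ := hg
  obtain ⟨c', hc'⟩ := hh
  have h2 : g.1.1 0 1 / 2 = 2 * c := by omega
  have h3 : h.1.1 0 1 / 2 = 2 * c' := by omega
  have e : (g.1 * h.1).1 = g.1.1 * h.1.1 := rfl
  have h4 : (g.1 * h.1).1 0 1 / 2 = g.1.1 0 0 * (2 * c') + 2 * c * h.1.1 1 1 := by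
    rw [e, Matrix.mul_apply, Fin.sum_univ_two, hc, hc']
    have : g.1.1 0 0 * (4 * c') + 4 * c * h.1.1 1 1 =
      2 * (g.1.1 0 0 * (2 * c') + 2 * c * h.1.1 1 1) := by ring
    rw [this]
    exact Int.mul_ediv_cancel_left _ two_ne_zero
  unfold cmat'
  rw [h4, h2, h3, e]
  ext i j
  fin_cases i <;> fin_cases j <;> simp [Matrix.mul_apply, Fin.sum_univ_two, hc, hc'] <;> ring

/-- the two virtual endomorphisms -/
noncomputable def sV (i : Bool) : VEnd sanov := by
  classical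
  exact match i with
  | false =>
    { D := sD
      f := fun g => if hg : (4 : ℤ) ∣ g.1.1 1 0 then sf g hg else 1
      fi := sD_fi
      mul := by
        intro a ha b hb
        have ha' : (4 : ℤ) ∣ a.1.1 1 0 := ha
        have hb' : (4 : ℤ) ∣ b.1.1 1 0 := hb
        have hab : (4 : ℤ) ∣ (a * b).1.1 1 0 := sD.mul_mem ha hb
        rw [dif_pos ha', dif_pos hb', dif_pos hab]
        exact sf_mul a b ha' hb' hab }
  | true =>
    { D := sD'
      f := fun g => if hg : (4 : ℤ) ∣ g.1.1 0 1 then sf' g hg else 1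
      fi := sD'_fi
      mul := by
        intro a ha b hb
        have ha' : (4 : ℤ) ∣ a.1.1 0 1 := ha
        have hb' : (4 : ℤ) ∣ b.1.1 0 1 := hb
        have hab : (4 : ℤ) ∣ (a * b).1.1 0 1 := sD'.mul_mem ha hb
        rw [dif_pos ha', dif_pos hb', dif_pos hab]
        exact sf'_mul a b ha' hb' hab }

lemma eq_zero_of_two_pow_dvd (z : ℤ) (h : ∀ n : ℕ, (2 : ℤ) ^ n ∣ z) : z = 0 := by
  by_contra hz
  have h1 := Int.natAbs_dvd_natAbs.2 (h z.natAbs)
  rw [Int.natAbs_pow] at h1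
  have h2 := Nat.le_of_dvd (Int.natAbs_pos.2 hz) h1
  have h3 : z.natAbs < 2 ^ z.natAbs := Nat.lt_two_pow_self
  have h4 : (2 : ℤ).natAbs = 2 := rfl
  rw [h4] at h2
  omega

theorem selfSimilar_sanov : SelfSimilar sanov := by
  classical
  apply selfSimilar_of_fam
  refine ⟨Bool, inferInstance, sV, ?_⟩
  intro K hK
  have h10 : ∀ n : ℕ, ∀ g ∈ K, (2 : ℤ) ^ n ∣ g.1.1 1 0 := by
    intro n
    induction n with
    | zero => intro g _; simp
    | succ n ih =>
      intro g hg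
      have h1 : (4 : ℤ) ∣ g.1.1 1 0 := (hK false).1 hg
      have h2 := ih _ ((hK false).2 g hg)
      have h3 : (sV false).f g = sf g h1 := dif_pos h1
      rw [h3] at h2
      have h4 : (2 : ℤ) ^ n ∣ g.1.1 1 0 / 2 := h2
      obtain ⟨m, hm⟩ := h4
      refine ⟨m, ?_⟩
      rw [pow_succ, mul_comm ((2 : ℤ) ^ n) 2, mul_assoc, ← hm]
      omega
  have h01 : ∀ n : ℕ, ∀ g ∈ K, (2 : ℤ) ^ n ∣ g.1.1 0 1 := by
    intro n
    induction n with
    | zero => intro g _; simp
    | succ n ih =>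
      intro g hg
      have h1 : (4 : ℤ) ∣ g.1.1 0 1 := (hK true).1 hg
      have h2 := ih _ ((hK true).2 g hg)
      have h3 : (sV true).f g = sf' g h1 := dif_pos h1
      rw [h3] at h2
      have h4 : (2 : ℤ) ^ n ∣ g.1.1 0 1 / 2 := h2
      obtain ⟨m, hm⟩ := h4
      refine ⟨m, ?_⟩
      rw [pow_succ, mul_comm ((2 : ℤ) ^ n) 2, mul_assoc, ← hm]
      omega
  rw [eq_bot_iff]
  intro g hg
  rw [Subgroup.mem_bot]
  have e10 := eq_zero_of_two_pow_dvd _ (fun n => h10 n g hg)
  have e01 := eq_zero_of_two_pow_dvd _ (fun n => h01 n g hg)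
  have hd := sl_det g.1
  rw [e10, mul_zero, sub_zero] at hd
  obtain ⟨h1, h2, _, _⟩ := g.2
  have ha : g.1.1 0 0 = 1 := by
    rcases Int.eq_one_or_neg_one_of_mul_eq_one hd with h5 | h5
    · exact h5
    · omega
  rw [ha, one_mul] at hd
  apply Subtype.ext
  apply Subtype.ext
  ext i j
  fin_cases i <;> fin_cases j
  · exact ha
  · exact e01
  · exact e10
  · exact hd

end family

/-- The free group of rank two is self-similar. -/
theorem selfSimilar_free : SelfSimilar (FreeGroup (Fin 2)) :=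
  selfSimilar_sanov.of_equiv sanovEquiv.symm

end Pool.Agent.MP505b0b

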